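import Pool.Agent.Y969.GP.Def

set_option autoImplicit false

/-!
Project GP (helper969), job GP-VAR, part 2: Minkowski type inequality.
-/

namespace Pool.Agent.Y125.GP

open Pool.Agent.Y969.GP MeasureTheory Set

/-- weighted Cauchy-Schwarz -/
lemma cs_weight {S : ℝ} (hS : 1 ≤ S) {h f : ℝ → ℝ} (hh : Continuous h) (hf : Continuous f)
    (hf0 : ∀ t, 0 < f t) :
    (∫ t in (1 : ℝ)..S, h t) ^ 2 ≤ (∫ t in (1 : ℝ)..S, f t) * ∫ t in (1 : ℝ)..S, h t ^ 2 / f t := by
  rcases hS.eq_or_lt with rfl | hS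
  · simp
  set P := ∫ t in (1 : ℝ)..S, f t with hP
  set G := ∫ t in (1 : ℝ)..S, h t with hG
  set Q := ∫ t in (1 : ℝ)..S, h t ^ 2 / f t with hQ
  have hP0 : 0 < P := by
    apply intervalIntegral.intervalIntegral_pos_of_pos
    · exact hf.intervalIntegrable _ _
    · exact hf0
    · exact hS
  have hfne : ∀ t, f t ≠ 0 := fun t => (hf0 t).ne'
  have hc1 : Continuous fun t => h t ^ 2 / f t := (hh.pow 2).div hf hfne
  have e1 : ∫ t in (1 : ℝ)..S, (P ^ 2 * (h t ^ 2 / f t) - 2 * P * G * h t + G ^ 2 * f t) =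
      P ^ 2 * Q - 2 * P * G * G + G ^ 2 * P := by
    rw [intervalIntegral.integral_add, intervalIntegral.integral_sub,
      intervalIntegral.integral_const_mul, intervalIntegral.integral_const_mul,
      intervalIntegral.integral_const_mul]
    · exact (hc1.intervalIntegrable _ _).const_mul _
    · exact (hh.intervalIntegrable _ _).const_mul _
    · exact ((hc1.intervalIntegrable _ _).const_mul _).sub ((hh.intervalIntegrable _ _).const_mul _)
    · exact (hf.intervalIntegrable _ _).const_mul _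
  have e2 : 0 ≤ ∫ t in (1 : ℝ)..S, (P ^ 2 * (h t ^ 2 / f t) - 2 * P * G * h t + G ^ 2 * f t) := by
    apply intervalIntegral.integral_nonneg hS.le
    intro t _
    have h1 : P ^ 2 * (h t ^ 2 / f t) - 2 * P * G * h t + G ^ 2 * f t =
        (P * h t - G * f t) ^ 2 / f t := by
      have := hfne t
      field_simp
      ring
    rw [h1]
    exact div_nonneg (sq_nonneg _) (hf0 t).le
  rw [e1] at e2
  have e3 : 0 ≤ P * (P * Q - G ^ 2) := by
    calc (0 : ℝ) ≤ P ^ 2 * Q - 2 * P * G * G + G ^ 2 * P := e2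
      _ = P * (P * Q - G ^ 2) := by ring
  have e4 : 0 ≤ P * Q - G ^ 2 := nonneg_of_mul_nonneg_right e3 hP0
  linarith

lemma mB_eq (n : ℕ) (a T : ℝ) :
    mB n a T = (volume : Measure (Fin n → ℝ)).restrict (Set.univ.pi fun _ => Icc a T) := by
  unfold mB
  rw [volume_pi, Measure.restrict_pi_pi]

instance (n : ℕ) (a T : ℝ) : IsFiniteMeasure (mB n a T) := by
  unfold mB
  infer_instance

lemma int_mB {n : ℕ} {a T : ℝ} {E : Type*} [NormedAddCommGroup E] {h : (Fin n → ℝ) → E}
    (hh : Continuous h) : Integrable h (mB n a T) := by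
  rw [mB_eq]
  exact hh.continuousOn.integrableOn_compact (isCompact_univ_pi fun _ => isCompact_Icc)

lemma ae_mB (n : ℕ) (a T : ℝ) : ∀ᵐ c ∂(mB n a T), ∀ j, c j ∈ Icc a T := by
  rw [mB_eq]
  have h := ae_restrict_mem (μ := (volume : Measure (Fin n → ℝ)))
    (s := Set.univ.pi fun _ : Fin n => Icc a T) (MeasurableSet.univ_pi fun _ => measurableSet_Icc)
  filter_upwards [h] with c hc j
  exact hc j (mem_univ _)

lemma cont_param {n : ℕ} {S : ℝ} {g : (Fin n → ℝ) → ℝ → ℂ}
    (hg : Continuous (Function.uncurry g)) : Continuous fun c => ∫ t in (1 : ℝ)..S, g c t :=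
  intervalIntegral.continuous_parametric_intervalIntegral_of_continuous' hg 1 S

/-- Minkowski type inequality -/
lemma mink {n : ℕ} {a T S M : ℝ} (hS : 1 ≤ S) {g : (Fin n → ℝ) → ℝ → ℂ}
    (hg : Continuous (Function.uncurry g)) {f : ℝ → ℝ} (hf : Continuous f) (hf0 : ∀ t, 0 < f t)
    (hM : ∀ t, 1 ≤ t → t ≤ S → ∫ c, ‖g c t‖ ^ 2 ∂(mB n a T) ≤ M * f t ^ 2) :
    ∫ c, ‖∫ t in (1 : ℝ)..S, g c t‖ ^ 2 ∂(mB n a T) ≤ M * (∫ t in (1 : ℝ)..S, f t) ^ 2 := by
  set P := ∫ t in (1 : ℝ)..S, f t with hP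
  have hP0 : 0 ≤ P := intervalIntegral.integral_nonneg hS fun t _ => (hf0 t).le
  have hfne : ∀ t, f t ≠ 0 := fun t => (hf0 t).ne'
  have hgc : ∀ c, Continuous (g c) := fun c => by
    have : g c = fun t => Function.uncurry g (c, t) := rfl
    rw [this]
    exact hg.comp (by fun_prop)
  have hk : Continuous (Function.uncurry fun (c : Fin n → ℝ) (t : ℝ) => ‖g c t‖ ^ 2 / f t) := by
    have : (Function.uncurry fun (c : Fin n → ℝ) (t : ℝ) => ‖g c t‖ ^ 2 / f t) =
        fun x => ‖Function.uncurry g x‖ ^ 2 / f x.2 := by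
      ext x; rfl
    rw [this]
    exact (hg.norm.pow 2).div (hf.comp continuous_snd) fun x => hfne _
  have step1 : ∫ c, ‖∫ t in (1 : ℝ)..S, g c t‖ ^ 2 ∂(mB n a T) ≤
      ∫ c, (P * ∫ t in (1 : ℝ)..S, ‖g c t‖ ^ 2 / f t) ∂(mB n a T) := by
    apply integral_mono
    · exact int_mB ((cont_param hg).norm.pow 2)
    · apply int_mB
      apply Continuous.const_smul (c := P)
      exact intervalIntegral.continuous_parametric_intervalIntegral_of_continuous' hk 1 S
    · intro c
      calc ‖∫ t in (1 : ℝ)..S, g c t‖ ^ 2 ≤ (∫ t in (1 : ℝ)..S, ‖g c t‖) ^ 2 := by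
            apply pow_le_pow_left₀ (norm_nonneg _)
            exact intervalIntegral.norm_integral_le_integral_norm hS
        _ ≤ P * ∫ t in (1 : ℝ)..S, ‖g c t‖ ^ 2 / f t := cs_weight hS (hgc c).norm hf hf0
  have step2 : ∫ c, (P * ∫ t in (1 : ℝ)..S, ‖g c t‖ ^ 2 / f t) ∂(mB n a T) =
      P * ∫ t in (1 : ℝ)..S, (∫ c, ‖g c t‖ ^ 2 ∂(mB n a T)) / f t := by
    rw [integral_const_mul]
    congr 1
    simp_rw [intervalIntegral.integral_of_le hS]
    rw [integral_integral_swap]
    · congr 1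
      ext t
      rw [integral_div]
    · have hkc : ContinuousOn (Function.uncurry fun (c : Fin n → ℝ) (t : ℝ) => ‖g c t‖ ^ 2 / f t)
          ((Set.univ.pi fun _ => Icc a T) ×ˢ (Icc 1 S)) := hk.continuousOn
      have h1 := hkc.integrableOn_compact (μ := (volume : Measure (Fin n → ℝ)).prod volume)
        ((isCompact_univ_pi fun _ => isCompact_Icc).prod isCompact_Icc)
      have h2 : IntegrableOn (Function.uncurry fun (c : Fin n → ℝ) (t : ℝ) => ‖g c t‖ ^ 2 / f t)
          ((Set.univ.pi fun _ => Icc a T) ×ˢ (Ioc 1 S))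
          ((volume : Measure (Fin n → ℝ)).prod volume) :=
        h1.mono_set (prod_mono_right Ioc_subset_Icc_self)
      unfold IntegrableOn at h2
      rw [← Measure.prod_restrict, ← mB_eq] at h2
      exact h2
  have step3 : ∫ t in (1 : ℝ)..S, (∫ c, ‖g c t‖ ^ 2 ∂(mB n a T)) / f t ≤
      ∫ t in (1 : ℝ)..S, M * f t := by
    have hc : Continuous fun t => ∫ c, ‖g c t‖ ^ 2 ∂(mB n a T) := by
      rw [mB_eq]
      have hk2 : Continuous (Function.uncurry fun (t : ℝ) (c : Fin n → ℝ) => ‖g c t‖ ^ 2) := by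
        have : (Function.uncurry fun (t : ℝ) (c : Fin n → ℝ) => ‖g c t‖ ^ 2) =
            fun x => ‖Function.uncurry g (x.2, x.1)‖ ^ 2 := by
          ext x; rfl
        rw [this]
        exact ((hg.comp (by fun_prop)).norm.pow 2)
      exact continuous_parametric_integral_of_continuous hk2
        (isCompact_univ_pi fun _ => isCompact_Icc)
    apply intervalIntegral.integral_mono_on hS
    · exact (hc.div hf hfne).intervalIntegrable _ _
    · exact (hf.const_smul M).intervalIntegrable _ _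
    · intro t ht
      rw [div_le_iff₀ (hf0 t)]
      refine (hM t ht.1 ht.2).trans (le_of_eq ?_)
      ring
  calc ∫ c, ‖∫ t in (1 : ℝ)..S, g c t‖ ^ 2 ∂(mB n a T)
      ≤ P * ∫ t in (1 : ℝ)..S, (∫ c, ‖g c t‖ ^ 2 ∂(mB n a T)) / f t := step1.trans step2.le
    _ ≤ P * ∫ t in (1 : ℝ)..S, M * f t := mul_le_mul_of_nonneg_left step3 hP0
    _ = M * P ^ 2 := by
        rw [intervalIntegral.integral_const_mul]; ring

end Pool.Agent.Y125.GP
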