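import Pool.Agent.Y125.GP.Fix
import Pool.Agent.Y125.GP.Mink

set_option autoImplicit false

/-!
Project GP (helper969), job GP-VAR, part 3: the amplitudes and the integration by parts in `t`.
-/

namespace Pool.Agent.Y125.GP

open Pool.Agent.Y969.GP MeasureTheory Set
open Complex hiding mk

noncomputable section

/-- derivatives of the coefficients, frozen below `1/2` -/
def ev (X : ℕ) : ℕ → ℕ × ℕ → ℝ → ℝ
  | 0, p, u => cr X p (max (1 / 2) u)
  | 1, p, u => deriv (cr X p) (max (1 / 2) u)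
  | _, p, u => deriv (deriv (cr X p)) (max (1 / 2) u)

/-- the bounds for the coefficients -/
def CRB (X : ℕ) (C : ℝ) : Prop := ∀ p : ℕ × ℕ, p ∈ FR X → ∀ u : ℝ, 0 < u →
    DifferentiableAt ℝ (cr X p) u ∧ DifferentiableAt ℝ (deriv (cr X p)) u ∧
    ContinuousAt (deriv (deriv (cr X p))) u ∧
    |cr X p u| ≤ C * (1 + Real.log X) * (√(ht p))⁻¹ ∧
    |u * deriv (cr X p) u| ≤ C * (1 + Real.log X) * (√(ht p))⁻¹ ∧
    |u ^ 2 * deriv (deriv (cr X p)) u| ≤ C * (1 + Real.log X) * (√(ht p))⁻¹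

lemma max_half_pos (u : ℝ) : max (1 / 2) u ∈ Ioi (0 : ℝ) :=
  lt_of_lt_of_le (by norm_num) (le_max_left (1 / 2 : ℝ) u)

lemma ev_cont {X : ℕ} {C : ℝ} (h : CRB X C) (k : ℕ) {p : ℕ × ℕ} (hp : p ∈ FR X) :
    Continuous (ev X k p) := by
  have hm : Continuous fun u : ℝ => max (1 / 2) u := continuous_const.max continuous_id
  match k with
  | 0 =>
    have h1 : ContinuousOn (cr X p) (Ioi 0) := fun u hu =>
      (h p hp u hu).1.continuousAt.continuousWithinAt
    exact h1.comp_continuous hm max_half_pos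
  | 1 =>
    have h1 : ContinuousOn (deriv (cr X p)) (Ioi 0) := fun u hu =>
      (h p hp u hu).2.1.continuousAt.continuousWithinAt
    exact h1.comp_continuous hm max_half_pos
  | (k + 2) =>
    have h1 : ContinuousOn (deriv (deriv (cr X p))) (Ioi 0) := fun u hu =>
      (h p hp u hu).2.2.1.continuousWithinAt
    exact h1.comp_continuous hm max_half_pos

lemma ev_deriv {X : ℕ} {C : ℝ} (h : CRB X C) {k : ℕ} (hk : k ≤ 1) {p : ℕ × ℕ} (hp : p ∈ FR X)
    {u : ℝ} (hu : 1 / 2 < u) : HasDerivAt (ev X k p) (ev X (k + 1) p u) u := by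
  have h0 : 0 < u := by linarith
  have hmx : max (1 / 2) u = u := max_eq_right hu.le
  have hev : ∀ᶠ v in nhds u, max (1 / 2) v = v := by
    filter_upwards [Ioi_mem_nhds hu] with v hv
    exact max_eq_right (le_of_lt hv)
  match k, hk with
  | 0, _ =>
    have h1 := (h p hp u h0).1.hasDerivAt
    have h2 : ev X (0 + 1) p u = deriv (cr X p) u := by
      show deriv (cr X p) (max (1 / 2) u) = _
      rw [hmx]
    rw [h2]
    refine h1.congr_of_eventuallyEq ?_
    filter_upwards [hev] with v hv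
    show cr X p (max (1 / 2) v) = _
    rw [hv]
  | 1, _ =>
    have h1 := (h p hp u h0).2.1.hasDerivAt
    have h2 : ev X (1 + 1) p u = deriv (deriv (cr X p)) u := by
      show deriv (deriv (cr X p)) (max (1 / 2) u) = _
      rw [hmx]
    rw [h2]
    refine h1.congr_of_eventuallyEq ?_
    filter_upwards [hev] with v hv
    show deriv (cr X p) (max (1 / 2) v) = _
    rw [hv]

lemma ev_bd {X : ℕ} {C : ℝ} (h : CRB X C) {k : ℕ} (hk : k ≤ 2) {p : ℕ × ℕ} (hp : p ∈ FR X)
    {u : ℝ} (hu : 1 ≤ u) : |ev X k p u| ≤ C * (1 + Real.log X) * (√(ht p))⁻¹ / u ^ k := by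
  have h0 : 0 < u := by linarith
  have hmx : max (1 / 2) u = u := max_eq_right (by linarith)
  rw [le_div_iff₀ (by positivity)]
  match k, hk with
  | 0, _ =>
    have h1 := (h p hp u h0).2.2.2.1
    show |cr X p (max (1 / 2) u)| * u ^ 0 ≤ _
    rw [hmx, pow_zero, mul_one]
    exact h1
  | 1, _ =>
    have h1 := (h p hp u h0).2.2.2.2.1
    show |deriv (cr X p) (max (1 / 2) u)| * u ^ 1 ≤ _
    rw [hmx, pow_one]
    rw [abs_mul, abs_of_pos h0, mul_comm] at h1
    exact h1
  | 2, _ =>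
    have h1 := (h p hp u h0).2.2.2.2.2
    show |deriv (deriv (cr X p)) (max (1 / 2) u)| * u ^ 2 ≤ _
    rw [hmx]
    rw [abs_mul, abs_of_pos (by positivity : 0 < u ^ 2), mul_comm] at h1
    exact h1

lemma cc_cont {n : ℕ} (j : Fin (n + 1)) : Continuous fun c : Fin n → ℝ => cc c j := by
  refine Fin.cases ?_ ?_ j
  · simp only [cc_zero]; exact continuous_const
  · intro i; simp only [cc_succ]; exact continuous_apply i

lemma nd_mem {n X : ℕ} {q : Fin (n + 1) → ℕ × ℕ} (hq : q ∈ nd n X) (j : Fin (n + 1)) :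
    q j ∈ FR X := (Fintype.mem_piFinset.mp (Finset.mem_filter.mp hq).1) j

lemma D_cont {n X : ℕ} {C : ℝ} (h : CRB X C) (m : (Fin (n + 1) → ℕ × ℕ) → ℂ)
    (k : Fin (n + 1) → ℕ) :
    Continuous (Function.uncurry fun (c : Fin n → ℝ) (t : ℝ) => D X m (fun j => ev X (k j)) c t) := by
  unfold D Function.uncurry
  apply continuous_finsetSum
  intro q hq
  apply Continuous.mul continuous_const
  apply continuous_finsetProd
  intro j _
  have hcc : Continuous fun x : (Fin n → ℝ) × ℝ => x.2 + cc x.1 j :=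
    continuous_snd.add ((cc_cont j).comp continuous_fst)
  apply Continuous.mul
  · exact Complex.continuous_ofReal.comp ((ev_cont h (k j) (nd_mem hq j)).comp hcc)
  · apply Continuous.cexp
    apply Continuous.mul continuous_const
    exact Complex.continuous_ofReal.comp (hcc.mul continuous_const)

/-- derivative in `t` -/
lemma D_deriv {n X : ℕ} {C : ℝ} (h : CRB X C) (m : (Fin (n + 1) → ℕ × ℕ) → ℂ)
    {c : Fin n → ℝ} (hc : ∀ j, 0 ≤ c j) {t : ℝ} (ht : 1 / 2 < t) :
    HasDerivAt (fun t => D X m (fun _ => ev X 0) c t)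
      (D X (fun q => m q * (I * (Lm q : ℝ))) (fun _ => ev X 0) c t +
        ∑ j, D X m (fun i => ev X (if i = j then 1 else 0)) c t) t := by
  have hcc : ∀ j, 0 ≤ cc c j := by
    intro j
    refine Fin.cases ?_ ?_ j
    · simp
    · intro i; simpa using hc i
  have key : ∀ q ∈ nd n X, HasDerivAt (fun t : ℝ => m q *
      ∏ j, ((ev X 0 (q j) (t + cc c j) : ℂ) * cexp (I * (((t + cc c j) * lam (q j) : ℝ) : ℂ))))
      ((m q * (I * (Lm q : ℝ))) * (∏ j, ((ev X 0 (q j) (t + cc c j) : ℂ) *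
          cexp (I * (((t + cc c j) * lam (q j) : ℝ) : ℂ)))) +
        ∑ j, m q * ∏ i, ((ev X (if i = j then 1 else 0) (q i) (t + cc c i) : ℂ) *
          cexp (I * (((t + cc c i) * lam (q i) : ℝ) : ℂ)))) t := by
    intro q hq
    have h1 : ∀ j ∈ (Finset.univ : Finset (Fin (n + 1))), HasDerivAt
        (fun t : ℝ => (ev X 0 (q j) (t + cc c j) : ℂ) *
          cexp (I * (((t + cc c j) * lam (q j) : ℝ) : ℂ)))
        ((ev X 1 (q j) (t + cc c j) : ℂ) * cexp (I * (((t + cc c j) * lam (q j) : ℝ) : ℂ)) +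
          ((ev X 0 (q j) (t + cc c j) : ℂ) * cexp (I * (((t + cc c j) * lam (q j) : ℝ) : ℂ))) *
            (I * (lam (q j) : ℝ))) t := by
      intro j _
      have hu : 1 / 2 < t + cc c j := by linarith [hcc j]
      have h2 : HasDerivAt (fun t : ℝ => (ev X 0 (q j) (t + cc c j) : ℂ))
          ((ev X 1 (q j) (t + cc c j) : ℝ) : ℂ) t :=
        ((ev_deriv h (le_of_lt Nat.zero_lt_one) (nd_mem hq j) hu).comp_add_const t (cc c j)).ofReal_comp
      have h3 : HasDerivAt (fun t : ℝ => cexp (I * (((t + cc c j) * lam (q j) : ℝ) : ℂ)))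
          (cexp (I * (((t + cc c j) * lam (q j) : ℝ) : ℂ)) * (I * (lam (q j) : ℝ))) t := by
        have h4 : HasDerivAt (fun t : ℝ => (((t + cc c j) * lam (q j) : ℝ) : ℂ))
            ((1 * lam (q j) : ℝ) : ℂ) t :=
          (((hasDerivAt_id t).add_const (cc c j)).mul_const (lam (q j))).ofReal_comp
        have h5 := (h4.const_mul I).cexp
        simpa using h5
      refine (h2.mul h3).congr_deriv ?_
      ring
    have h7 := HasDerivAt.fun_finsetProd h1
    refine (h7.const_mul (m q)).congr_deriv ?_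
    symm
    have h9 : ∀ j : Fin (n + 1), ∏ i, ((ev X (if i = j then 1 else 0) (q i) (t + cc c i) : ℂ) *
          cexp (I * (((t + cc c i) * lam (q i) : ℝ) : ℂ))) =
        (∏ i ∈ Finset.univ.erase j, ((ev X 0 (q i) (t + cc c i) : ℂ) *
          cexp (I * (((t + cc c i) * lam (q i) : ℝ) : ℂ)))) *
        ((ev X 1 (q j) (t + cc c j) : ℂ) * cexp (I * (((t + cc c j) * lam (q j) : ℝ) : ℂ))) := by
      intro j
      rw [← Finset.prod_erase_mul _ _ (Finset.mem_univ j)]
      rw [if_pos rfl]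
      congr 1
      refine Finset.prod_congr rfl fun i hi => ?_
      rw [if_neg (Finset.ne_of_mem_erase hi)]
    have h10 : ∀ j : Fin (n + 1), (∏ i ∈ Finset.univ.erase j, ((ev X 0 (q i) (t + cc c i) : ℂ) *
          cexp (I * (((t + cc c i) * lam (q i) : ℝ) : ℂ)))) *
        ((ev X 0 (q j) (t + cc c j) : ℂ) * cexp (I * (((t + cc c j) * lam (q j) : ℝ) : ℂ))) =
        ∏ i, ((ev X 0 (q i) (t + cc c i) : ℂ) *
          cexp (I * (((t + cc c i) * lam (q i) : ℝ) : ℂ))) :=
      fun j => Finset.prod_erase_mul _ _ (Finset.mem_univ j)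
    have h11 : ((Lm q : ℝ) : ℂ) = ∑ j, ((lam (q j) : ℝ) : ℂ) := by
      unfold Lm; push_cast; rfl
    set Pr : ℂ := ∏ i, ((ev X 0 (q i) (t + cc c i) : ℂ) *
          cexp (I * (((t + cc c i) * lam (q i) : ℝ) : ℂ))) with hPr
    have h12 : ∀ j : Fin (n + 1), (∏ i ∈ Finset.univ.erase j, ((ev X 0 (q i) (t + cc c i) : ℂ) *
          cexp (I * (((t + cc c i) * lam (q i) : ℝ) : ℂ)))) •
        ((ev X 1 (q j) (t + cc c j) : ℂ) * cexp (I * (((t + cc c j) * lam (q j) : ℝ) : ℂ)) +
          ((ev X 0 (q j) (t + cc c j) : ℂ) * cexp (I * (((t + cc c j) * lam (q j) : ℝ) : ℂ))) *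
            (I * (lam (q j) : ℝ))) =
        ∏ i, ((ev X (if i = j then 1 else 0) (q i) (t + cc c i) : ℂ) *
          cexp (I * (((t + cc c i) * lam (q i) : ℝ) : ℂ))) + Pr * (I * (lam (q j) : ℝ)) := by
      intro j
      rw [h9 j, ← h10 j, smul_eq_mul]
      ring
    rw [Finset.sum_congr rfl fun j _ => h12 j, Finset.sum_add_distrib, ← Finset.mul_sum,
      ← Finset.mul_sum, ← Finset.mul_sum, ← h11]
    ring
  have h12 := HasDerivAt.fun_sum key
  unfold D
  refine h12.congr_deriv ?_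
  rw [Finset.sum_add_distrib]
  congr 1
  rw [Finset.sum_comm]

end

end Pool.Agent.Y125.GP
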