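import Pool.Agent.Y125.GP.LSW

set_option autoImplicit false

/-!
Project GP (helper969), job GP-VAR, part 1: mean square over the shifts for fixed `t`.
-/

namespace Pool.Agent.Y125.GP

open Pool.Agent.Y969.GP MeasureTheory Set
open Complex hiding mk

noncomputable section

/-- nondiagonal tuples -/
def nd (n X : ℕ) : Finset (Fin (n + 1) → ℕ × ℕ) :=
  (Fintype.piFinset fun _ : Fin (n + 1) => FR X).filter (fun q => ∏ j, (q j).1 ≠ ∏ j, (q j).2)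

/-- total frequency -/
def Lm {k : ℕ} (q : Fin k → ℕ × ℕ) : ℝ := ∑ j, lam (q j)

/-- sums over nondiagonal tuples -/
def D {n : ℕ} (X : ℕ) (m : (Fin (n + 1) → ℕ × ℕ) → ℂ) (E : Fin (n + 1) → ℕ × ℕ → ℝ → ℝ)
    (c : Fin n → ℝ) (t : ℝ) : ℂ :=
  ∑ q ∈ nd n X, m q *
    ∏ j, ((E j (q j) (t + cc c j) : ℂ) * cexp (I * (((t + cc c j) * lam (q j) : ℝ) : ℂ)))

lemma sum_cons {n : ℕ} {α β : Type*} [DecidableEq α] [AddCommMonoid β] (s : Finset α)
    (F : (Fin (n + 1) → α) → β) :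
    ∑ q ∈ Fintype.piFinset (fun _ : Fin (n + 1) => s), F q =
      ∑ q' ∈ Fintype.piFinset (fun _ : Fin n => s), ∑ p ∈ s, F (Fin.cons p q') := by
  rw [← Finset.sum_product']
  refine Finset.sum_nbij' (fun q => (Fin.tail q, q 0)) (fun x => Fin.cons x.2 x.1) ?_ ?_ ?_ ?_ ?_
  · intro q hq
    rw [Fintype.mem_piFinset] at hq
    rw [Finset.mem_product, Fintype.mem_piFinset]
    exact ⟨fun j => hq j.succ, hq 0⟩
  · intro x hx
    rw [Finset.mem_product, Fintype.mem_piFinset] at hx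
    rw [Fintype.mem_piFinset]
    intro j
    refine Fin.cases ?_ ?_ j
    · simpa using hx.2
    · intro i; simpa using hx.1 i
  · intro q _; exact Fin.cons_self_tail q
  · intro x _; simp
  · intro q _; rw [Fin.cons_self_tail]

@[simp] lemma cc_zero {n : ℕ} (c : Fin n → ℝ) : cc c 0 = 0 := by simp [cc]
@[simp] lemma cc_succ {n : ℕ} (c : Fin n → ℝ) (j : Fin n) : cc c j.succ = c j := by simp [cc]

lemma Lm_cons {n : ℕ} (p : ℕ × ℕ) (q : Fin n → ℕ × ℕ) :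
    Lm (Fin.cons p q : Fin (n + 1) → ℕ × ℕ) = lam p + Lm q := by
  simp [Lm, Fin.sum_univ_succ]

/-- one term of `D` -/
lemma term_cons {n : ℕ} (E : Fin (n + 1) → ℕ × ℕ → ℝ → ℝ) (c : Fin n → ℝ) (t : ℝ) (p : ℕ × ℕ)
    (q : Fin n → ℕ × ℕ) :
    ∏ j, ((E j ((Fin.cons p q : Fin (n + 1) → ℕ × ℕ) j) (t + cc c j) : ℂ) *
      cexp (I * (((t + cc c j) * lam ((Fin.cons p q : Fin (n + 1) → ℕ × ℕ) j) : ℝ) : ℂ))) =
    ((E 0 p t : ℂ) * cexp (I * ((t * Lm (Fin.cons p q : Fin (n + 1) → ℕ × ℕ) : ℝ) : ℂ))) *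
      ∏ j, ((E j.succ (q j) (t + c j) : ℂ) * cexp (I * ((c j * lam (q j) : ℝ) : ℂ))) := by
  rw [Fin.prod_univ_succ]
  simp only [Fin.cons_zero, Fin.cons_succ, cc_zero, cc_succ, add_zero]
  rw [Lm_cons]
  have h1 : ∏ j : Fin n, ((E j.succ (q j) (t + c j) : ℂ) *
      cexp (I * (((t + c j) * lam (q j) : ℝ) : ℂ))) =
      cexp (I * ((t * Lm q : ℝ) : ℂ)) *
      ∏ j, ((E j.succ (q j) (t + c j) : ℂ) * cexp (I * ((c j * lam (q j) : ℝ) : ℂ))) := by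
    have h2 : cexp (I * ((t * Lm q : ℝ) : ℂ)) = ∏ j : Fin n, cexp (I * ((t * lam (q j) : ℝ) : ℂ)) := by
      rw [← Complex.exp_sum]
      congr 1
      unfold Lm
      push_cast
      rw [Finset.mul_sum, Finset.mul_sum]
    rw [h2, ← Finset.prod_mul_distrib]
    refine Finset.prod_congr rfl fun j _ => ?_
    have h3 : cexp (I * (((t + c j) * lam (q j) : ℝ) : ℂ)) =
        cexp (I * ((t * lam (q j) : ℝ) : ℂ)) * cexp (I * ((c j * lam (q j) : ℝ) : ℂ)) := by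
      rw [← Complex.exp_add]; congr 1; push_cast; ring
    rw [h3]; ring
  rw [h1]
  have h4 : cexp (I * ((t * (lam p + Lm q) : ℝ) : ℂ)) =
      cexp (I * ((t * lam p : ℝ) : ℂ)) * cexp (I * ((t * Lm q : ℝ) : ℂ)) := by
    rw [← Complex.exp_add]; congr 1; push_cast; ring
  rw [h4]; ring

open Classical in
/-- the coefficients for the large sieve -/
def Bf {n : ℕ} (X : ℕ) (m : (Fin (n + 1) → ℕ × ℕ) → ℂ) (E : Fin (n + 1) → ℕ × ℕ → ℝ → ℝ)
    (t : ℝ) (q : Fin n → ℕ × ℕ) : ℂ :=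
  ∑ p ∈ FR X, if (Fin.cons p q : Fin (n + 1) → ℕ × ℕ) ∈ nd n X then
    m (Fin.cons p q) *
      ((E 0 p t : ℂ) * cexp (I * ((t * Lm (Fin.cons p q : Fin (n + 1) → ℕ × ℕ) : ℝ) : ℂ))) else 0

open Classical in
lemma sum_nd {n : ℕ} {β : Type*} [AddCommMonoid β] (X : ℕ) (F : (Fin (n + 1) → ℕ × ℕ) → β) :
    ∑ q ∈ nd n X, F q =
      ∑ q' ∈ Fintype.piFinset (fun _ : Fin n => FR X), ∑ p ∈ FR X,
        if (Fin.cons p q' : Fin (n + 1) → ℕ × ℕ) ∈ nd n X then F (Fin.cons p q') else 0 := by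
  rw [← sum_cons (FR X) (fun q => if q ∈ nd n X then F q else 0)]
  rw [← Finset.sum_filter]
  refine Finset.sum_congr ?_ fun _ _ => rfl
  ext q
  simp only [nd, Finset.mem_filter]
  tauto

lemma D_eq {n : ℕ} (X : ℕ) (m : (Fin (n + 1) → ℕ × ℕ) → ℂ) (E : Fin (n + 1) → ℕ × ℕ → ℝ → ℝ)
    (c : Fin n → ℝ) (t : ℝ) :
    D X m E c t = ∑ q ∈ Fintype.piFinset (fun _ : Fin n => FR X), Bf X m E t q *
      ∏ j, ((E j.succ (q j) (t + c j) : ℂ) * cexp (I * ((c j * lam (q j) : ℝ) : ℂ))) := by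
  classical
  unfold D
  rw [sum_nd]
  refine Finset.sum_congr rfl fun q _ => ?_
  unfold Bf
  rw [Finset.sum_mul]
  refine Finset.sum_congr rfl fun p _ => ?_
  split_ifs with h
  · rw [term_cons]; ring
  · simp

/-- mean square over the shifts for fixed `t` -/
lemma fixed_t {n : ℕ} {C1 C2 : ℝ} (hC2 : 0 < C2)
    (hrow : ∀ (X : ℕ) (T θ : ℝ), 1 ≤ X → 1 ≤ T →
      ∑ p ∈ FR X, mk T (lam p - θ) ≤ C1 * ((T + X) * (1 + Real.log X)))
    (hL : ∀ (X : ℕ) (a T : ℝ), 1 ≤ X → 1 ≤ T → 0 ≤ a → a ≤ T →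
      ∀ (A A' : Fin n → ℕ × ℕ → ℝ → ℂ) (B : (Fin n → ℕ × ℕ) → ℂ) (w : Fin n → ℕ × ℕ → ℝ),
      (∀ j, ∀ p ∈ FR X, ∀ x ∈ Icc a T, HasDerivAt (A j p) (A' j p x) x) →
      (∀ j, ∀ p ∈ FR X, ContinuousOn (A' j p) (Icc a T)) →
      (∀ j, ∀ p ∈ FR X, ∀ x ∈ Icc a T, ‖A j p x‖ ≤ w j p) →
      (∀ j, ∀ p ∈ FR X, ∫ x in a..T, ‖A' j p x‖ ≤ w j p) →
      ∫ c, ‖∑ q ∈ Fintype.piFinset (fun _ : Fin n => FR X),
          B q * ∏ j, (A j (q j) (c j) * cexp (I * ((c j * lam (q j) : ℝ) : ℂ)))‖ ^ 2 ∂(mB n a T) ≤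
        (C2 * ((T + X) * (1 + Real.log X))) ^ n *
          ∑ q ∈ Fintype.piFinset (fun _ : Fin n => FR X), ‖B q‖ ^ 2 * ∏ j, w j (q j) ^ 2)
    {X : ℕ} {a T t : ℝ} (hX : 1 ≤ X) (hT : 1 ≤ T) (ha : 0 ≤ a) (haT : a ≤ T)
    {m : (Fin (n + 1) → ℕ × ℕ) → ℂ} {μ : ℝ} (hμ : 0 ≤ μ)
    (hm : ∀ q ∈ nd n X, ‖m q‖ ≤ 2 * μ * mk T (Lm q))
    {E E' : Fin (n + 1) → ℕ × ℕ → ℝ → ℝ} {w : ℕ × ℕ → ℝ} {v : Fin (n + 1) → ℝ}
    (hw : ∀ p ∈ FR X, 0 ≤ w p) (hv : ∀ j, 0 ≤ v j)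
    (hE0 : ∀ p ∈ FR X, |E 0 p t| ≤ v 0 * w p)
    (hE : ∀ j : Fin n, ∀ p ∈ FR X, ∀ x ∈ Icc a T,
      HasDerivAt (E j.succ p) (E' j.succ p (t + x)) (t + x))
    (hE'c : ∀ j : Fin n, ∀ p ∈ FR X, ContinuousOn (fun x => E' j.succ p (t + x)) (Icc a T))
    (hb : ∀ j : Fin n, ∀ p ∈ FR X, ∀ x ∈ Icc a T, |E j.succ p (t + x)| ≤ v j.succ * w p)
    (hi : ∀ j : Fin n, ∀ p ∈ FR X, ∫ x in a..T, |E' j.succ p (t + x)| ≤ v j.succ * w p) :
    ∫ c, ‖D X m E c t‖ ^ 2 ∂(mB n a T) ≤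
      (4 * μ ^ 2 * (∏ j, v j) ^ 2 * (C1 * ((T + X) * (1 + Real.log X))) *
        (C2 * ((T + X) * (1 + Real.log X))) ^ n) *
      ∑ q ∈ nd n X, (∏ j, w (q j) ^ 2) * mk T (Lm q) := by
  classical
  have hT0 : 0 < T := by linarith
  have hX1 : (1 : ℝ) ≤ X := by exact_mod_cast hX
  have hlog : 0 ≤ Real.log X := Real.log_nonneg hX1
  set R : ℝ := C1 * ((T + X) * (1 + Real.log X)) with hR
  have h1 := hL X a T hX hT ha haT (fun j p x => (E j.succ p (t + x) : ℂ))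
    (fun j p x => (E' j.succ p (t + x) : ℂ)) (Bf X m E t) (fun j p => v j.succ * w p)
    (by
      intro j p hp x hx
      have h2 := (hE j p hp x hx).comp_const_add t x
      exact h2.ofReal_comp)
    (by
      intro j p hp
      exact Complex.continuous_ofReal.comp_continuousOn (hE'c j p hp))
    (by
      intro j p hp x hx
      rw [Complex.norm_real, Real.norm_eq_abs]
      exact hb j p hp x hx)
    (by
      intro j p hp
      simp_rw [Complex.norm_real, Real.norm_eq_abs]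
      exact hi j p hp)
  simp_rw [D_eq]
  refine h1.trans ?_
  -- bound for the coefficients
  have hB : ∀ q ∈ Fintype.piFinset (fun _ : Fin n => FR X), ‖Bf X m E t q‖ ^ 2 ≤
      4 * μ ^ 2 * v 0 ^ 2 * R * ∑ p ∈ FR X,
        if (Fin.cons p q : Fin (n + 1) → ℕ × ℕ) ∈ nd n X then
          w p ^ 2 * mk T (Lm (Fin.cons p q : Fin (n + 1) → ℕ × ℕ)) else 0 := by
    intro q _
    set r : ℕ × ℕ → ℝ := fun p => if (Fin.cons p q : Fin (n + 1) → ℕ × ℕ) ∈ nd n X then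
      2 * μ * mk T (Lm (Fin.cons p q : Fin (n + 1) → ℕ × ℕ)) else 0 with hr
    have hr0 : ∀ p, 0 ≤ r p := by
      intro p
      simp only [hr]
      split_ifs
      · have := mk_nonneg hT0.le (Lm (Fin.cons p q : Fin (n + 1) → ℕ × ℕ))
        positivity
      · exact le_refl _
    have e1 : ‖Bf X m E t q‖ ≤ ∑ p ∈ FR X, r p * (v 0 * w p) := by
      unfold Bf
      refine (norm_sum_le _ _).trans (Finset.sum_le_sum fun p hp => ?_)
      simp only [hr]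
      split_ifs with hnd
      · rw [norm_mul, norm_mul, norm_cexp_I, mul_one, Complex.norm_real, Real.norm_eq_abs]
        exact mul_le_mul (hm _ hnd) (hE0 p hp) (abs_nonneg _)
          ((norm_nonneg _).trans (hm _ hnd))
      · simp
    have e2 : (∑ p ∈ FR X, r p * (v 0 * w p)) ^ 2 ≤
        (∑ p ∈ FR X, r p) * ∑ p ∈ FR X, r p * (v 0 * w p) ^ 2 := by
      apply Finset.sum_sq_le_sum_mul_sum_of_sq_eq_mul
      · intro p _; exact hr0 p
      · intro p _; exact mul_nonneg (hr0 p) (sq_nonneg _)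
      · intro p _; ring
    have e3 : ∑ p ∈ FR X, r p ≤ 2 * μ * R := by
      have h3 := hrow X T (-(Lm q)) hX hT
      calc ∑ p ∈ FR X, r p ≤ ∑ p ∈ FR X, 2 * μ * mk T (lam p - -(Lm q)) := by
            refine Finset.sum_le_sum fun p _ => ?_
            simp only [hr]
            split_ifs
            · rw [Lm_cons, sub_neg_eq_add]
            · have := mk_nonneg hT0.le (lam p - -(Lm q))
              positivity
        _ = 2 * μ * ∑ p ∈ FR X, mk T (lam p - -(Lm q)) := by rw [Finset.mul_sum]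
        _ ≤ 2 * μ * R := by gcongr
    have e4 : ∑ p ∈ FR X, r p * (v 0 * w p) ^ 2 = 2 * μ * v 0 ^ 2 * ∑ p ∈ FR X,
        if (Fin.cons p q : Fin (n + 1) → ℕ × ℕ) ∈ nd n X then
          w p ^ 2 * mk T (Lm (Fin.cons p q : Fin (n + 1) → ℕ × ℕ)) else 0 := by
      rw [Finset.mul_sum]
      refine Finset.sum_congr rfl fun p _ => ?_
      simp only [hr]
      split_ifs
      · ring
      · ring
    have e5 : 0 ≤ ∑ p ∈ FR X, r p * (v 0 * w p) ^ 2 :=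
      Finset.sum_nonneg fun p _ => mul_nonneg (hr0 p) (sq_nonneg _)
    calc ‖Bf X m E t q‖ ^ 2 ≤ (∑ p ∈ FR X, r p * (v 0 * w p)) ^ 2 :=
          pow_le_pow_left₀ (norm_nonneg _) e1 2
      _ ≤ (∑ p ∈ FR X, r p) * ∑ p ∈ FR X, r p * (v 0 * w p) ^ 2 := e2
      _ ≤ (2 * μ * R) * ∑ p ∈ FR X, r p * (v 0 * w p) ^ 2 :=
          mul_le_mul_of_nonneg_right e3 e5
      _ = _ := by rw [e4]; ring
  have hprod : ∀ q : Fin n → ℕ × ℕ, ∏ j, (v j.succ * w (q j)) ^ 2 =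
      (∏ j : Fin n, v j.succ) ^ 2 * ∏ j, w (q j) ^ 2 := by
    intro q
    simp_rw [mul_pow]
    rw [Finset.prod_mul_distrib, Finset.prod_pow]
  calc (C2 * ((T + X) * (1 + Real.log X))) ^ n *
        ∑ q ∈ Fintype.piFinset (fun _ : Fin n => FR X), ‖Bf X m E t q‖ ^ 2 *
          ∏ j, (v j.succ * w (q j)) ^ 2
      ≤ (C2 * ((T + X) * (1 + Real.log X))) ^ n *
        ∑ q ∈ Fintype.piFinset (fun _ : Fin n => FR X),
          (4 * μ ^ 2 * v 0 ^ 2 * R * ∑ p ∈ FR X,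
            if (Fin.cons p q : Fin (n + 1) → ℕ × ℕ) ∈ nd n X then
              w p ^ 2 * mk T (Lm (Fin.cons p q : Fin (n + 1) → ℕ × ℕ)) else 0) *
          ∏ j, (v j.succ * w (q j)) ^ 2 := by
        have hpw : 0 ≤ (C2 * ((T + X) * (1 + Real.log X))) ^ n := by positivity
        apply mul_le_mul_of_nonneg_left _ hpw
        refine Finset.sum_le_sum fun q hq => ?_
        exact mul_le_mul_of_nonneg_right (hB q hq) (Finset.prod_nonneg fun _ _ => sq_nonneg _)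
    _ = _ := by
        rw [sum_nd]
        rw [Finset.mul_sum, Finset.mul_sum]
        refine Finset.sum_congr rfl fun q _ => ?_
        rw [hprod, Fin.prod_univ_succ (f := v)]
        have e6 : ∑ p ∈ FR X, (if (Fin.cons p q : Fin (n + 1) → ℕ × ℕ) ∈ nd n X then
            (∏ j, w ((Fin.cons p q : Fin (n + 1) → ℕ × ℕ) j) ^ 2) *
              mk T (Lm (Fin.cons p q : Fin (n + 1) → ℕ × ℕ)) else 0) =
            (∑ p ∈ FR X, if (Fin.cons p q : Fin (n + 1) → ℕ × ℕ) ∈ nd n X then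
              w p ^ 2 * mk T (Lm (Fin.cons p q : Fin (n + 1) → ℕ × ℕ)) else 0) *
              ∏ j, w (q j) ^ 2 := by
          rw [Finset.sum_mul]
          refine Finset.sum_congr rfl fun p _ => ?_
          split_ifs
          · rw [Fin.prod_univ_succ]
            simp only [Fin.cons_zero, Fin.cons_succ]
            ring
          · simp
        rw [e6]
        ring

end

end Pool.Agent.Y125.GP
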