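import Pool.Agent.Y969.GP.Def

set_option autoImplicit false

/-!
Project GP (helper969), job GP-LSW: the large sieve in several variables with amplitudes of bounded
variation (`S_SP → S_LSW`).
-/

namespace Pool.Agent.Y125.GP

open Pool.Agent.Y969.GP MeasureTheory Set
open Complex hiding mk

lemma mk_nonneg {T : ℝ} (hT : 0 ≤ T) (x : ℝ) : 0 ≤ mk T x := by
  unfold mk; positivity

lemma mk_abs (T x : ℝ) : mk T (-x) = mk T x := by
  unfold mk; rw [abs_neg]

lemma mk_comm (T x y : ℝ) : mk T (x - y) = mk T (y - x) := by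
  rw [← mk_abs, neg_sub]

/-- `min (T, 1/|x|) ≤ 2 mk T x` -/
lemma le_mk {T x r : ℝ} (hT : 0 < T) (h1 : r ≤ T) (h2 : x ≠ 0 → r ≤ 1 / |x|) : r ≤ 2 * mk T x := by
  unfold mk
  have hx : 0 ≤ |x| := abs_nonneg x
  have hd : 0 < 1 + T * |x| := by positivity
  rw [← mul_div_assoc, le_div_iff₀ hd]
  by_cases hc : T * |x| ≤ 1
  · nlinarith [mul_nonneg hT.le hx]
  · have h0 : x ≠ 0 := by
      rintro rfl
      apply hc; simp
    have hxp : 0 < |x| := abs_pos.mpr h0
    have h3 := h2 h0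
    rw [le_div_iff₀ hxp] at h3
    push Not at hc
    nlinarith

/-- integration by parts -/
lemma ibp {a T δ : ℝ} (haT : a ≤ T) (hδ : δ ≠ 0) {g g' : ℝ → ℂ}
    (hg : ∀ x ∈ Icc a T, HasDerivAt g (g' x) x) (hc : ContinuousOn g' (Icc a T)) :
    ∫ x in a..T, g x * cexp (I * ((x * δ : ℝ) : ℂ)) =
      g T * (cexp (I * ((T * δ : ℝ) : ℂ)) / (I * δ)) - g a * (cexp (I * ((a * δ : ℝ) : ℂ)) / (I * δ)) -
      ∫ x in a..T, g' x * (cexp (I * ((x * δ : ℝ) : ℂ)) / (I * δ)) := by
  have hd : (I * (δ : ℂ)) ≠ 0 := mul_ne_zero I_ne_zero (by exact_mod_cast hδ)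
  have hv : ∀ x : ℝ, HasDerivAt (fun x : ℝ => cexp (I * ((x * δ : ℝ) : ℂ)) / (I * δ))
      (cexp (I * ((x * δ : ℝ) : ℂ))) x := by
    intro x
    have h1 : HasDerivAt (fun x : ℝ => I * ((x * δ : ℝ) : ℂ)) (I * δ) x := by
      have h2 : HasDerivAt (fun x : ℝ => ((x * δ : ℝ) : ℂ)) ((1 * δ : ℝ) : ℂ) x :=
        ((hasDerivAt_id x).mul_const δ).ofReal_comp
      have h3 := h2.const_mul I
      simpa using h3
    have h4 := (h1.cexp).div_const (I * δ)
    rw [mul_div_assoc, div_self hd, mul_one] at h4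
    exact h4
  have huIcc : uIcc a T = Icc a T := uIcc_of_le haT
  refine intervalIntegral.integral_mul_deriv_eq_deriv_mul
    (u := g) (v := fun x : ℝ => cexp (I * ((x * δ : ℝ) : ℂ)) / (I * δ))
    (u' := g') (v' := fun x : ℝ => cexp (I * ((x * δ : ℝ) : ℂ))) ?_ (fun x _ => hv x) ?_ ?_
  · rw [huIcc]; exact hg
  · apply ContinuousOn.intervalIntegrable
    rw [huIcc]; exact hc
  · apply Continuous.intervalIntegrable
    fun_prop

lemma norm_cexp_I (x : ℝ) : ‖cexp (I * (x : ℂ))‖ = 1 := by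
  rw [mul_comm]; exact Complex.norm_exp_ofReal_mul_I x

/-- van der Corput type bound for an amplitude of bounded variation -/
lemma osc {a T δ M N : ℝ} (haT : a ≤ T) (hδ : δ ≠ 0) {g g' : ℝ → ℂ}
    (hg : ∀ x ∈ Icc a T, HasDerivAt g (g' x) x) (hc : ContinuousOn g' (Icc a T))
    (hM : ∀ x ∈ Icc a T, ‖g x‖ ≤ M) (hN : ∫ x in a..T, ‖g' x‖ ≤ N) :
    ‖∫ x in a..T, g x * cexp (I * ((x * δ : ℝ) : ℂ))‖ ≤ (2 * M + N) / |δ| := by
  rw [ibp haT hδ hg hc]
  have hdp : 0 < |δ| := abs_pos.mpr hδ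
  have hn : ∀ x : ℝ, ‖cexp (I * ((x * δ : ℝ) : ℂ)) / (I * δ)‖ = 1 / |δ| := by
    intro x
    rw [norm_div, norm_cexp_I, norm_mul, norm_I, one_mul, Complex.norm_real, Real.norm_eq_abs]
  have h1 : ‖g T * (cexp (I * ((T * δ : ℝ) : ℂ)) / (I * δ))‖ ≤ M / |δ| := by
    rw [norm_mul, hn, mul_one_div]
    exact div_le_div_of_nonneg_right (hM T ⟨haT, le_refl _⟩) hdp.le
  have h2 : ‖g a * (cexp (I * ((a * δ : ℝ) : ℂ)) / (I * δ))‖ ≤ M / |δ| := by
    rw [norm_mul, hn, mul_one_div]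
    exact div_le_div_of_nonneg_right (hM a ⟨le_refl _, haT⟩) hdp.le
  have h3 : ‖∫ x in a..T, g' x * (cexp (I * ((x * δ : ℝ) : ℂ)) / (I * δ))‖ ≤ N / |δ| := by
    calc ‖∫ x in a..T, g' x * (cexp (I * ((x * δ : ℝ) : ℂ)) / (I * δ))‖
        ≤ ∫ x in a..T, ‖g' x * (cexp (I * ((x * δ : ℝ) : ℂ)) / (I * δ))‖ :=
          intervalIntegral.norm_integral_le_integral_norm haT
      _ = ∫ x in a..T, ‖g' x‖ * (1 / |δ|) := by
          congr 1; ext x; rw [norm_mul, hn]
      _ = (∫ x in a..T, ‖g' x‖) * (1 / |δ|) := by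
          rw [intervalIntegral.integral_mul_const]
      _ ≤ N / |δ| := by
          rw [mul_one_div]
          exact div_le_div_of_nonneg_right hN hdp.le
  calc _ ≤ ‖g T * (cexp (I * ((T * δ : ℝ) : ℂ)) / (I * δ))‖ +
        ‖g a * (cexp (I * ((a * δ : ℝ) : ℂ)) / (I * δ))‖ +
        ‖∫ x in a..T, g' x * (cexp (I * ((x * δ : ℝ) : ℂ)) / (I * δ))‖ :=
          (norm_sub_le _ _).trans (add_le_add_left (norm_sub_le _ _) _)
    _ ≤ M / |δ| + M / |δ| + N / |δ| := by gcongr
    _ = (2 * M + N) / |δ| := by ring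

/-- the trivial bound -/
lemma triv {a T δ M : ℝ} (haT : a ≤ T) (ha : 0 ≤ a) {g : ℝ → ℂ}
    (hM : ∀ x ∈ Icc a T, ‖g x‖ ≤ M) :
    ‖∫ x in a..T, g x * cexp (I * ((x * δ : ℝ) : ℂ))‖ ≤ T * M := by
  have hM0 : 0 ≤ M := (norm_nonneg _).trans (hM a ⟨le_refl _, haT⟩)
  have h := intervalIntegral.norm_integral_le_of_norm_le_const (a := a) (b := T) (C := M)
    (f := fun x => g x * cexp (I * ((x * δ : ℝ) : ℂ))) (by
      intro x hx
      rw [uIoc_of_le haT] at hx
      rw [norm_mul, norm_cexp_I, mul_one]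
      exact hM x ⟨hx.1.le, hx.2⟩)
  refine h.trans ?_
  rw [abs_of_nonneg (by linarith)]
  nlinarith

/-- one coordinate: the integral of two terms -/
lemma one_coord {a T : ℝ} (ha : 0 ≤ a) (haT : a ≤ T) (hT : 0 < T) {A A' B B' : ℝ → ℂ} {w v l m : ℝ}
    (hA : ∀ x ∈ Icc a T, HasDerivAt A (A' x) x) (hA' : ContinuousOn A' (Icc a T))
    (hAw : ∀ x ∈ Icc a T, ‖A x‖ ≤ w) (hAi : ∫ x in a..T, ‖A' x‖ ≤ w)
    (hB : ∀ x ∈ Icc a T, HasDerivAt B (B' x) x) (hB' : ContinuousOn B' (Icc a T))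
    (hBw : ∀ x ∈ Icc a T, ‖B x‖ ≤ v) (hBi : ∫ x in a..T, ‖B' x‖ ≤ v) :
    ‖∫ x in Icc a T, (A x * cexp (I * ((x * l : ℝ) : ℂ))) *
      (starRingEnd ℂ) (B x * cexp (I * ((x * m : ℝ) : ℂ)))‖ ≤ w * v * (8 * mk T (l - m)) := by
  have hw0 : 0 ≤ w := (norm_nonneg _).trans (hAw a ⟨le_refl _, haT⟩)
  have hv0 : 0 ≤ v := (norm_nonneg _).trans (hBw a ⟨le_refl _, haT⟩)
  set g : ℝ → ℂ := fun x => A x * (starRingEnd ℂ) (B x) with hgdef
  set g' : ℝ → ℂ := fun x => A' x * (starRingEnd ℂ) (B x) + A x * (starRingEnd ℂ) (B' x) with hg'def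
  have e1 : ∫ x in Icc a T, (A x * cexp (I * ((x * l : ℝ) : ℂ))) *
      (starRingEnd ℂ) (B x * cexp (I * ((x * m : ℝ) : ℂ))) =
      ∫ x in a..T, g x * cexp (I * ((x * (l - m) : ℝ) : ℂ)) := by
    rw [intervalIntegral.integral_of_le haT, integral_Icc_eq_integral_Ioc]
    congr 1
    ext x
    rw [hgdef]
    simp only [map_mul]
    rw [← Complex.exp_conj]
    have : cexp (I * ((x * (l - m) : ℝ) : ℂ)) = cexp (I * ((x * l : ℝ) : ℂ)) *
        cexp ((starRingEnd ℂ) (I * ((x * m : ℝ) : ℂ))) := by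
      rw [← Complex.exp_add]
      congr 1
      simp only [map_mul, conj_I, Complex.conj_ofReal]
      push_cast
      ring
    rw [this]
    ring
  rw [e1]
  have hgd : ∀ x ∈ Icc a T, HasDerivAt g (g' x) x := by
    intro x hx
    have h1 := hA x hx
    have h2 : HasDerivAt (fun x => (starRingEnd ℂ) (B x)) ((starRingEnd ℂ) (B' x)) x := by
      have := (hB x hx).star
      simpa using this
    exact h1.mul h2
  have hcA : ContinuousOn A (Icc a T) := fun x hx => (hA x hx).continuousAt.continuousWithinAt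
  have hcB : ContinuousOn B (Icc a T) := fun x hx => (hB x hx).continuousAt.continuousWithinAt
  have hcg' : ContinuousOn g' (Icc a T) := by
    apply ContinuousOn.add
    · exact hA'.mul (Complex.continuous_conj.comp_continuousOn hcB)
    · exact hcA.mul (Complex.continuous_conj.comp_continuousOn hB')
  have hgM : ∀ x ∈ Icc a T, ‖g x‖ ≤ w * v := by
    intro x hx
    rw [hgdef]
    simp only [norm_mul, RCLike.norm_conj]
    exact mul_le_mul (hAw x hx) (hBw x hx) (norm_nonneg _) hw0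
  have hgN : ∫ x in a..T, ‖g' x‖ ≤ 2 * (w * v) := by
    have i1 : IntervalIntegrable (fun x => ‖g' x‖) volume a T := by
      apply ContinuousOn.intervalIntegrable
      rw [uIcc_of_le haT]
      exact hcg'.norm
    have i2 : IntervalIntegrable (fun x => ‖A' x‖) volume a T := by
      apply ContinuousOn.intervalIntegrable
      rw [uIcc_of_le haT]
      exact hA'.norm
    have i3 : IntervalIntegrable (fun x => ‖B' x‖) volume a T := by
      apply ContinuousOn.intervalIntegrable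
      rw [uIcc_of_le haT]
      exact hB'.norm
    calc ∫ x in a..T, ‖g' x‖ ≤ ∫ x in a..T, (‖A' x‖ * v + w * ‖B' x‖) := by
          apply intervalIntegral.integral_mono_on haT i1 ((i2.mul_const v).add (i3.const_mul w))
          intro x hx
          rw [hg'def]
          refine (norm_add_le _ _).trans ?_
          rw [norm_mul, norm_mul, RCLike.norm_conj, RCLike.norm_conj]
          exact add_le_add (mul_le_mul_of_nonneg_left (hBw x hx) (norm_nonneg _))
            (mul_le_mul_of_nonneg_right (hAw x hx) (norm_nonneg _))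
      _ = (∫ x in a..T, ‖A' x‖) * v + w * ∫ x in a..T, ‖B' x‖ := by
          rw [intervalIntegral.integral_add (i2.mul_const v) (i3.const_mul w),
            intervalIntegral.integral_mul_const, intervalIntegral.integral_const_mul]
      _ ≤ w * v + w * v := by gcongr
      _ = 2 * (w * v) := by ring
  have hwv : 0 ≤ w * v := mul_nonneg hw0 hv0
  rcases hwv.eq_or_lt with h0 | hpos
  · have := triv (δ := l - m) haT ha hgM
    rw [← h0] at this ⊢
    simpa using this
  · have key : ‖∫ x in a..T, g x * cexp (I * ((x * (l - m) : ℝ) : ℂ))‖ / (4 * (w * v)) ≤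
        2 * mk T (l - m) := by
      apply le_mk hT
      · rw [div_le_iff₀ (by positivity)]
        have h5 := triv (δ := l - m) haT ha hgM
        have h6 : 0 ≤ T * (w * v) := mul_nonneg hT.le hwv
        linarith
      · intro hδ
        rw [div_le_iff₀ (by positivity)]
        refine (osc haT hδ hgd hcg' hgM hgN).trans (le_of_eq ?_)
        ring
    rw [div_le_iff₀ (by positivity)] at key
    refine key.trans (le_of_eq ?_)
    ring

theorem t_LSW (h : S_SP) : S_LSW := by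
  obtain ⟨-, C, hC, hrow⟩ := h
  intro n
  refine ⟨8 * C, by positivity, ?_⟩
  intro X a T hX hT ha haT A A' B w hA hA' hAw hAi
  have hT0 : 0 < T := by linarith
  have hX1 : (1 : ℝ) ≤ X := by exact_mod_cast hX
  have hlog : 0 ≤ Real.log X := Real.log_nonneg hX1
  -- the single terms
  set F : Fin n → ℕ × ℕ → ℝ → ℂ := fun j p x => A j p x * cexp (I * ((x * lam p : ℝ) : ℂ)) with hF
  set Q := Fintype.piFinset (fun _ : Fin n => FR X) with hQ
  have hw0 : ∀ j, ∀ p ∈ FR X, 0 ≤ w j p := fun j p hp =>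
    (norm_nonneg _).trans (hAw j p hp a ⟨le_refl _, haT⟩)
  have hcF : ∀ j, ∀ p ∈ FR X, ContinuousOn (F j p) (Icc a T) := by
    intro j p hp x hx
    apply ContinuousAt.continuousWithinAt
    apply ContinuousAt.mul (hA j p hp x hx).continuousAt
    fun_prop
  -- expansion of the square
  have e1 : ∀ c : Fin n → ℝ, ((‖∑ q ∈ Q, B q * ∏ j, F j (q j) (c j)‖ ^ 2 : ℝ) : ℂ) =
      ∑ q ∈ Q, ∑ q' ∈ Q, (B q * (starRingEnd ℂ) (B q')) *
        ∏ j, (F j (q j) (c j) * (starRingEnd ℂ) (F j (q' j) (c j))) := by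
    intro c
    push_cast
    rw [← Complex.mul_conj', map_sum, Finset.sum_mul_sum]
    refine Finset.sum_congr rfl fun q _ => Finset.sum_congr rfl fun q' _ => ?_
    rw [map_mul, map_prod]
    have e0 : ∏ j, (F j (q j) (c j) * (starRingEnd ℂ) (F j (q' j) (c j))) =
        (∏ j, F j (q j) (c j)) * ∏ j, (starRingEnd ℂ) (F j (q' j) (c j)) :=
      Finset.prod_mul_distrib
    rw [e0]
    ring
  have hint : ∀ q ∈ Q, ∀ q' ∈ Q, Integrable (fun c : Fin n → ℝ => (B q * (starRingEnd ℂ) (B q')) *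
        ∏ j, (F j (q j) (c j) * (starRingEnd ℂ) (F j (q' j) (c j)))) (mB n a T) := by
    intro q hq q' hq'
    apply Integrable.const_mul
    unfold mB
    apply MeasureTheory.Integrable.fintype_prod
      (f := fun j x => F j (q j) x * (starRingEnd ℂ) (F j (q' j) x))
    intro j
    have hqj : q j ∈ FR X := (Fintype.mem_piFinset.mp hq) j
    have hqj' : q' j ∈ FR X := (Fintype.mem_piFinset.mp hq') j
    exact (ContinuousOn.mul (hcF j _ hqj)
      (Complex.continuous_conj.comp_continuousOn (hcF j _ hqj'))).integrableOn_compact isCompact_Icc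
  have e2 : ((∫ c, ‖∑ q ∈ Q, B q * ∏ j, F j (q j) (c j)‖ ^ 2 ∂(mB n a T) : ℝ) : ℂ) =
      ∑ q ∈ Q, ∑ q' ∈ Q, (B q * (starRingEnd ℂ) (B q')) *
        ∏ j, ∫ x in Icc a T, (F j (q j) x * (starRingEnd ℂ) (F j (q' j) x)) := by
    rw [← integral_complex_ofReal]
    simp_rw [e1]
    rw [integral_finset_sum _ (fun q hq => integrable_finset_sum _ (fun q' hq' => hint q hq q' hq'))]
    refine Finset.sum_congr rfl fun q hq => ?_
    rw [integral_finset_sum _ (fun q' hq' => hint q hq q' hq')]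
    refine Finset.sum_congr rfl fun q' hq' => ?_
    rw [integral_const_mul]
    congr 1
    unfold mB
    exact integral_fintype_prod_eq_prod (fun j x => F j (q j) x * (starRingEnd ℂ) (F j (q' j) x))
  set b : (Fin n → ℕ × ℕ) → ℝ := fun q => ‖B q‖ * ∏ j, w j (q j) with hb
  set K : (Fin n → ℕ × ℕ) → (Fin n → ℕ × ℕ) → ℝ := fun q q' =>
    ∏ j, (8 * mk T (lam (q j) - lam (q' j))) with hK
  have hK0 : ∀ q q', 0 ≤ K q q' := fun q q' =>
    Finset.prod_nonneg fun j _ => mul_nonneg (by norm_num) (mk_nonneg hT0.le _)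
  have hKs : ∀ q q', K q q' = K q' q := by
    intro q q'
    simp only [hK]
    exact Finset.prod_congr rfl fun j _ => by rw [mk_comm]
  have hb0 : ∀ q ∈ Q, 0 ≤ b q := fun q hq => mul_nonneg (norm_nonneg _)
    (Finset.prod_nonneg fun j _ => hw0 j _ ((Fintype.mem_piFinset.mp hq) j))
  have e3 : ∀ q ∈ Q, ∀ q' ∈ Q, ‖(B q * (starRingEnd ℂ) (B q')) *
        ∏ j, ∫ x in Icc a T, (F j (q j) x * (starRingEnd ℂ) (F j (q' j) x))‖ ≤
      b q * b q' * K q q' := by
    intro q hq q' hq'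
    rw [norm_mul, norm_mul, RCLike.norm_conj, norm_prod]
    have : ∏ j, ‖∫ x in Icc a T, (F j (q j) x * (starRingEnd ℂ) (F j (q' j) x))‖ ≤
        ∏ j, (w j (q j) * w j (q' j) * (8 * mk T (lam (q j) - lam (q' j)))) := by
      apply Finset.prod_le_prod
      · intro j _; exact norm_nonneg _
      · intro j _
        have hqj : q j ∈ FR X := (Fintype.mem_piFinset.mp hq) j
        have hqj' : q' j ∈ FR X := (Fintype.mem_piFinset.mp hq') j
        exact one_coord ha haT hT0 (hA j _ hqj) (hA' j _ hqj) (hAw j _ hqj) (hAi j _ hqj)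
          (hA j _ hqj') (hA' j _ hqj') (hAw j _ hqj') (hAi j _ hqj')
    calc _ ≤ ‖B q‖ * ‖B q'‖ *
          ∏ j, (w j (q j) * w j (q' j) * (8 * mk T (lam (q j) - lam (q' j)))) :=
          mul_le_mul_of_nonneg_left this (by positivity)
      _ = b q * b q' * K q q' := by
          simp only [hb, hK]
          rw [Finset.prod_mul_distrib, Finset.prod_mul_distrib]
          ring
  have hrowK : ∀ q ∈ Q, ∑ q' ∈ Q, K q q' ≤ (8 * C * ((T + X) * (1 + Real.log X))) ^ n := by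
    intro q _
    have e4 : ∑ q' ∈ Q, K q q' = ∏ j : Fin n, ∑ p ∈ FR X, (8 * mk T (lam (q j) - lam p)) := by
      rw [Finset.prod_univ_sum]
    rw [e4]
    calc ∏ j : Fin n, ∑ p ∈ FR X, (8 * mk T (lam (q j) - lam p))
        ≤ ∏ _j : Fin n, (8 * C * ((T + X) * (1 + Real.log X))) := by
          apply Finset.prod_le_prod
          · intro j _
            exact Finset.sum_nonneg fun p _ => mul_nonneg (by norm_num) (mk_nonneg hT0.le _)
          · intro j _
            rw [← Finset.mul_sum]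
            have := hrow X T (lam (q j)) hX hT
            simp_rw [mk_comm T (lam (q j))]
            calc 8 * ∑ p ∈ FR X, mk T (lam p - lam (q j)) ≤
                8 * (C * ((T + X) * (1 + Real.log X))) := by gcongr
              _ = _ := by ring
      _ = (8 * C * ((T + X) * (1 + Real.log X))) ^ n := by
          rw [Finset.prod_const, Finset.card_univ, Fintype.card_fin]
  have e5 : ∫ c, ‖∑ q ∈ Q, B q * ∏ j, F j (q j) (c j)‖ ^ 2 ∂(mB n a T) ≤
      ∑ q ∈ Q, ∑ q' ∈ Q, b q * b q' * K q q' := by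
    have h0 : 0 ≤ ∫ c, ‖∑ q ∈ Q, B q * ∏ j, F j (q j) (c j)‖ ^ 2 ∂(mB n a T) :=
      integral_nonneg fun c => by positivity
    calc ∫ c, ‖∑ q ∈ Q, B q * ∏ j, F j (q j) (c j)‖ ^ 2 ∂(mB n a T)
        = ‖((∫ c, ‖∑ q ∈ Q, B q * ∏ j, F j (q j) (c j)‖ ^ 2 ∂(mB n a T) : ℝ) : ℂ)‖ := by
          rw [Complex.norm_real, Real.norm_of_nonneg h0]
      _ ≤ ∑ q ∈ Q, ∑ q' ∈ Q, b q * b q' * K q q' := by
          rw [e2]
          refine (norm_sum_le _ _).trans (Finset.sum_le_sum fun q hq => ?_)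
          exact (norm_sum_le _ _).trans (Finset.sum_le_sum fun q' hq' => e3 q hq q' hq')
  have e6 : ∑ q ∈ Q, ∑ q' ∈ Q, b q * b q' * K q q' ≤ ∑ q ∈ Q, b q ^ 2 * ∑ q' ∈ Q, K q q' := by
    have h1 : ∑ q ∈ Q, ∑ q' ∈ Q, b q * b q' * K q q' ≤
        ∑ q ∈ Q, ∑ q' ∈ Q, ((b q ^ 2 * K q q') / 2 + (b q' ^ 2 * K q' q) / 2) := by
      refine Finset.sum_le_sum fun q _ => Finset.sum_le_sum fun q' _ => ?_
      rw [hKs q' q]
      nlinarith [mul_nonneg (sq_nonneg (b q - b q')) (hK0 q q')]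
    have h2 : ∑ q ∈ Q, ∑ q' ∈ Q, ((b q ^ 2 * K q q') / 2 + (b q' ^ 2 * K q' q) / 2) =
        ∑ q ∈ Q, b q ^ 2 * ∑ q' ∈ Q, K q q' := by
      simp_rw [Finset.sum_add_distrib]
      rw [Finset.sum_comm (f := fun q q' => b q' ^ 2 * K q' q / 2)]
      rw [← Finset.sum_add_distrib]
      refine Finset.sum_congr rfl fun q _ => ?_
      rw [← Finset.sum_div, Finset.mul_sum]
      ring
    exact h1.trans h2.le
  refine (e5.trans e6).trans ?_
  rw [Finset.mul_sum]
  refine Finset.sum_le_sum fun q hq => ?_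
  have e7 : b q ^ 2 = ‖B q‖ ^ 2 * ∏ j, w j (q j) ^ 2 := by
    simp only [hb]
    rw [mul_pow, Finset.prod_pow]
  rw [← e7, mul_comm]
  exact mul_le_mul_of_nonneg_right (hrowK q hq) (sq_nonneg _)

end Pool.Agent.Y125.GP
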