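import Pool.Agent.Y125.GP.Ev

set_option autoImplicit false

/-!
Project GP (helper969), job GP-VAR: mean square of the off-diagonal part
(`S_SP → S_LSW → S_OFF → S_CR → S_VAR`).
-/

namespace Pool.Agent.Y125.GP

open Pool.Agent.Y969.GP MeasureTheory Set
open Complex hiding mk

noncomputable section

/-- the weights -/
def wf (X : ℕ) (C : ℝ) (p : ℕ × ℕ) : ℝ := C * (1 + Real.log X) * (√(ht p))⁻¹

/-- the right hand side of the mean square bounds -/
def NN (n X : ℕ) (C1 C2 C3 T : ℝ) : ℝ :=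
  (C1 * ((T + X) * (1 + Real.log X))) * (C2 * ((T + X) * (1 + Real.log X))) ^ n *
    ∑ q ∈ nd n X, (∏ j, wf X C3 (q j) ^ 2) * mk T (Lm q)

lemma fixed_k {n : ℕ} {C1 C2 C3 : ℝ} (hC2 : 0 < C2) (hC3 : 0 < C3)
    (hrow : ∀ (X : ℕ) (T θ : ℝ), 1 ≤ X → 1 ≤ T →
      ∑ p ∈ FR X, mk T (lam p - θ) ≤ C1 * ((T + X) * (1 + Real.log X)))
    (hL : ∀ (X : ℕ) (a T : ℝ), 1 ≤ X → 1 ≤ T → 0 ≤ a → a ≤ T →
      ∀ (A A' : Fin n → ℕ × ℕ → ℝ → ℂ) (B : (Fin n → ℕ × ℕ) → ℂ) (w : Fin n → ℕ × ℕ → ℝ),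
      (∀ j, ∀ p ∈ FR X, ∀ x ∈ Icc a T, HasDerivAt (A j p) (A' j p x) x) →
      (∀ j, ∀ p ∈ FR X, ContinuousOn (A' j p) (Icc a T)) →
      (∀ j, ∀ p ∈ FR X, ∀ x ∈ Icc a T, ‖A j p x‖ ≤ w j p) →
      (∀ j, ∀ p ∈ FR X, ∫ x in a..T, ‖A' j p x‖ ≤ w j p) →
      ∫ c, ‖∑ q ∈ Fintype.piFinset (fun _ : Fin n => FR X),
          B q * ∏ j, (A j (q j) (c j) * cexp (I * ((c j * lam (q j) : ℝ) : ℂ)))‖ ^ 2 ∂(mB n a T) ≤
        (C2 * ((T + X) * (1 + Real.log X))) ^ n *
          ∑ q ∈ Fintype.piFinset (fun _ : Fin n => FR X), ‖B q‖ ^ 2 * ∏ j, w j (q j) ^ 2)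
    {X : ℕ} {a T t : ℝ} (hX : 1 ≤ X) (hcr : CRB X C3) (ha : 1 ≤ a) (haT : a ≤ T) (ht1 : 1 ≤ t)
    {m : (Fin (n + 1) → ℕ × ℕ) → ℂ} {μ : ℝ} (hμ : 0 ≤ μ)
    (hm : ∀ q ∈ nd n X, ‖m q‖ ≤ 2 * μ * mk T (Lm q))
    {k : Fin (n + 1) → ℕ} (hk : ∀ j, k j ≤ 1) :
    ∫ c, ‖D X m (fun j => ev X (k j)) c t‖ ^ 2 ∂(mB n a T) ≤
      4 * μ ^ 2 * ((1 / t ^ (k 0)) * ∏ j : Fin n, ((T / a) / a ^ (k j.succ))) ^ 2 *
        NN n X C1 C2 C3 T := by
  have hX1 : (1 : ℝ) ≤ X := by exact_mod_cast hX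
  have hlog : 0 ≤ Real.log X := Real.log_nonneg hX1
  have ha0 : 0 < a := by linarith
  have hTa : 1 ≤ T / a := by rw [le_div_iff₀ ha0]; linarith
  have hw : ∀ p, 0 ≤ wf X C3 p := fun p => by unfold wf; positivity
  have h := fixed_t (n := n) hC2 hrow hL (X := X) (a := a) (T := T) (t := t) hX (by linarith) ha0.le
    haT hμ hm (E := fun j => ev X (k j)) (E' := fun j => ev X (k j + 1)) (w := wf X C3)
    (v := Fin.cons (1 / t ^ (k 0)) (fun j => (T / a) / a ^ (k j.succ)))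
    (fun p _ => hw p)
    (by
      intro j
      refine Fin.cases ?_ ?_ j
      · simp only [Fin.cons_zero]; positivity
      · intro i; simp only [Fin.cons_succ]; positivity)
    (by
      intro p hp
      have h1 := ev_bd hcr (k := k 0) (by have := hk 0; omega) hp ht1
      simp only [Fin.cons_zero]
      refine h1.trans (le_of_eq ?_)
      unfold wf
      ring)
    (by
      intro j p hp x hx
      exact ev_deriv hcr (hk j.succ) hp (by linarith [hx.1]))
    (by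
      intro j p hp
      exact ((ev_cont hcr _ hp).comp (by fun_prop)).continuousOn)
    (by
      intro j p hp x hx
      have h1 := ev_bd hcr (k := k j.succ) (by have := hk j.succ; omega) hp
        (u := t + x) (by linarith [hx.1])
      simp only [Fin.cons_succ]
      refine h1.trans ?_
      have h2 : a ^ (k j.succ) ≤ (t + x) ^ (k j.succ) :=
        pow_le_pow_left₀ ha0.le (by linarith [hx.1]) _
      have h3 : 0 < a ^ (k j.succ) := by positivity
      have h5 : 0 ≤ wf X C3 p := hw p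
      calc C3 * (1 + Real.log X) * (√(ht p))⁻¹ / (t + x) ^ (k j.succ)
          ≤ wf X C3 p / a ^ (k j.succ) := by
            unfold wf
            exact div_le_div_of_nonneg_left h5 h3 h2
        _ ≤ (T / a) * (wf X C3 p / a ^ (k j.succ)) :=
            le_mul_of_one_le_left (by positivity) hTa
        _ = _ := by ring)
    (by
      intro j p hp
      simp only [Fin.cons_succ]
      have h5 : 0 ≤ wf X C3 p := hw p
      have hcn : Continuous fun x : ℝ => |ev X (k j.succ + 1) p (t + x)| :=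
        ((ev_cont hcr _ hp).comp (by fun_prop)).abs
      calc ∫ x in a..T, |ev X (k j.succ + 1) p (t + x)|
          ≤ ∫ _x in a..T, wf X C3 p / a ^ (k j.succ + 1) := by
            apply intervalIntegral.integral_mono_on haT (hcn.intervalIntegrable _ _)
              (continuous_const.intervalIntegrable _ _)
            intro x hx
            have h1 := ev_bd hcr (k := k j.succ + 1) (by have := hk j.succ; omega) hp
              (u := t + x) (by linarith [hx.1])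
            refine h1.trans ?_
            have h2 : a ^ (k j.succ + 1) ≤ (t + x) ^ (k j.succ + 1) :=
              pow_le_pow_left₀ ha0.le (by linarith [hx.1]) _
            have h3 : 0 < a ^ (k j.succ + 1) := by positivity
            exact div_le_div_of_nonneg_left h5 h3 h2
        _ = (T - a) * (wf X C3 p / a ^ (k j.succ + 1)) := by
            rw [intervalIntegral.integral_const, smul_eq_mul]
        _ ≤ T * (wf X C3 p / a ^ (k j.succ + 1)) :=
            mul_le_mul_of_nonneg_right (by linarith) (by positivity)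
        _ = _ := by
            rw [pow_succ]
            have : a ^ (k j.succ) ≠ 0 := by positivity
            field_simp)
  refine h.trans (le_of_eq ?_)
  rw [Fin.prod_univ_succ]
  simp only [Fin.cons_zero, Fin.cons_succ]
  unfold NN
  ring

/-- multipliers -/
def mS {n : ℕ} (T : ℝ) (q : Fin (n + 1) → ℕ × ℕ) : ℂ :=
  open Classical in if |Lm q| ≤ 1 / T then 1 else 0

/-- multipliers -/
def mI {n : ℕ} (T : ℝ) (q : Fin (n + 1) → ℕ × ℕ) : ℂ :=
  open Classical in if |Lm q| ≤ 1 / T then 0 else (I * (Lm q : ℝ))⁻¹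

lemma mS_add {n : ℕ} {T : ℝ} (hT : 0 < T) (q : Fin (n + 1) → ℕ × ℕ) :
    mS T q + mI T q * (I * (Lm q : ℝ)) = 1 := by
  unfold mS mI
  split_ifs with h
  · simp
  · have h1 : Lm q ≠ 0 := by
      intro h0
      apply h
      rw [h0, abs_zero]
      positivity
    have h2 : (I * ((Lm q : ℝ) : ℂ)) ≠ 0 := mul_ne_zero I_ne_zero (by exact_mod_cast h1)
    rw [inv_mul_cancel₀ h2, zero_add]

lemma mS_le {n : ℕ} {T : ℝ} (hT : 0 < T) (q : Fin (n + 1) → ℕ × ℕ) :
    ‖mS T q‖ ≤ 2 * (1 / T) * mk T (Lm q) := by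
  have h0 := mk_nonneg hT.le (Lm q)
  unfold mS
  split_ifs with h
  · rw [norm_one]
    have h1 : T ≤ 2 * mk T (Lm q) := by
      apply le_mk hT le_rfl
      intro hne
      have hp : 0 < |Lm q| := abs_pos.mpr hne
      rw [le_div_iff₀ hp]
      rw [le_div_iff₀ hT] at h
      linarith
    calc (1 : ℝ) = (1 / T) * T := by field_simp
      _ ≤ (1 / T) * (2 * mk T (Lm q)) := by gcongr
      _ = _ := by ring
  · rw [norm_zero]; positivity

lemma mI_le {n : ℕ} {T : ℝ} (hT : 0 < T) (q : Fin (n + 1) → ℕ × ℕ) :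
    ‖mI T q‖ ≤ 2 * 1 * mk T (Lm q) := by
  have h0 := mk_nonneg hT.le (Lm q)
  unfold mI
  split_ifs with h
  · rw [norm_zero]; positivity
  · rw [norm_inv, norm_mul, norm_I, one_mul, Complex.norm_real, Real.norm_eq_abs, mul_one]
    apply le_mk hT
    · push Not at h
      have hp : 0 < |Lm q| := lt_trans (by positivity) h
      rw [inv_le_comm₀ hp hT]
      rw [← one_div]
      exact h.le
    · intro _
      rw [one_div]

/-- kinds with one derivative -/
def kj {n : ℕ} (j : Fin (n + 1)) : Fin (n + 1) → ℕ := fun i => if i = j then 1 else 0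

lemma D_add {n X : ℕ} (m m' : (Fin (n + 1) → ℕ × ℕ) → ℂ) (E : Fin (n + 1) → ℕ × ℕ → ℝ → ℝ)
    (c : Fin n → ℝ) (t : ℝ) :
    D X m E c t + D X m' E c t = D X (fun q => m q + m' q) E c t := by
  unfold D
  rw [← Finset.sum_add_distrib]
  exact Finset.sum_congr rfl fun q _ => by ring

/-- the integral for fixed shifts -/
lemma pointwise {n X : ℕ} {C : ℝ} (h : CRB X C) {T S : ℝ} (hT : 0 < T) (hS : 1 ≤ S)
    (hP : ∀ (u : ℝ), PX X u = ∑ p ∈ FR X, (cr X p u : ℂ) * cexp (I * ((u * lam p : ℝ) : ℂ)))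
    (hM : ∀ (c : Fin n → ℝ) (t : ℝ),
      MX X c t = ∑ q ∈ (Fintype.piFinset fun _ : Fin (n + 1) => FR X).filter
        (fun q => ∏ j, (q j).1 = ∏ j, (q j).2),
        ∏ j, ((cr X (q j) (t + cc c j) : ℂ) * cexp (I * (((t + cc c j) * lam (q j) : ℝ) : ℂ))))
    {c : Fin n → ℝ} (hc : ∀ j, 0 ≤ c j) :
    ∫ t in (1 : ℝ)..S, (∏ j, PX X (t + cc c j) - MX X c t) =
      (∫ t in (1 : ℝ)..S, D X (mS T) (fun _ => ev X 0) c t) +
      D X (mI T) (fun _ => ev X 0) c S - D X (mI T) (fun _ => ev X 0) c 1 -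
      ∑ j, ∫ t in (1 : ℝ)..S, D X (mI T) (fun i => ev X (kj j i)) c t := by
  have hcc : ∀ j, 0 ≤ cc c j := by
    intro j
    refine Fin.cases ?_ ?_ j
    · simp
    · intro i; simpa using hc i
  have e1 : ∀ t : ℝ, 1 ≤ t → ∏ j, PX X (t + cc c j) - MX X c t =
      D X (mS T) (fun _ => ev X 0) c t +
      D X (fun q => mI T q * (I * (Lm q : ℝ))) (fun _ => ev X 0) c t := by
    intro t ht
    rw [D_add]
    simp_rw [mS_add hT]
    simp_rw [hP]
    rw [Finset.prod_univ_sum, hM]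
    rw [sub_eq_iff_eq_add', ← Finset.sum_filter_add_sum_filter_not
      (Fintype.piFinset fun _ : Fin (n + 1) => FR X) (fun q => ∏ j, (q j).1 = ∏ j, (q j).2)]
    congr 1
    unfold D nd
    refine Finset.sum_congr rfl fun q _ => ?_
    rw [one_mul]
    refine Finset.prod_congr rfl fun j _ => ?_
    have : ev X 0 (q j) (t + cc c j) = cr X (q j) (t + cc c j) := by
      show cr X (q j) (max (1 / 2) (t + cc c j)) = _
      rw [max_eq_right (by linarith [hcc j])]
    simp only [this]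
  have hci : ∀ (m : (Fin (n + 1) → ℕ × ℕ) → ℂ) (k : Fin (n + 1) → ℕ),
      Continuous fun t => D X m (fun j => ev X (k j)) c t := by
    intro m k
    have h1 := D_cont (n := n) h m k
    have h2 : (fun t => D X m (fun j => ev X (k j)) c t) = fun t =>
        Function.uncurry (fun (c : Fin n → ℝ) (t : ℝ) => D X m (fun j => ev X (k j)) c t) (c, t) := rfl
    rw [h2]
    exact h1.comp (by fun_prop)
  have e2 : ∫ t in (1 : ℝ)..S, (∏ j, PX X (t + cc c j) - MX X c t) =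
      (∫ t in (1 : ℝ)..S, D X (mS T) (fun _ => ev X 0) c t) +
      ∫ t in (1 : ℝ)..S, D X (fun q => mI T q * (I * (Lm q : ℝ))) (fun _ => ev X 0) c t := by
    rw [← intervalIntegral.integral_add ((hci (mS T) (fun _ => 0)).intervalIntegrable _ _)
      ((hci (fun q => mI T q * (I * (Lm q : ℝ))) (fun _ => 0)).intervalIntegrable _ _)]
    apply intervalIntegral.integral_congr
    intro t ht
    rw [uIcc_of_le hS] at ht
    exact e1 t ht.1
  have e3 := intervalIntegral.integral_eq_sub_of_hasDerivAt (a := 1) (b := S)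
    (f := fun t => D X (mI T) (fun _ => ev X 0) c t)
    (f' := fun t => D X (fun q => mI T q * (I * (Lm q : ℝ))) (fun _ => ev X 0) c t +
        ∑ j, D X (mI T) (fun i => ev X (kj j i)) c t)
    (by
      intro t ht
      rw [uIcc_of_le hS] at ht
      exact D_deriv h (mI T) hc (by linarith [ht.1]))
    (by
      apply Continuous.intervalIntegrable
      apply Continuous.add
      · exact hci (fun q => mI T q * (I * (Lm q : ℝ))) (fun _ => 0)
      · exact continuous_finsetSum _ fun j _ => hci (mI T) (kj j))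
  rw [intervalIntegral.integral_add
    ((hci (fun q => mI T q * (I * (Lm q : ℝ))) (fun _ => 0)).intervalIntegrable _ _)
    ((continuous_finsetSum _ fun j _ => hci (mI T) (kj j)).intervalIntegrable _ _),
    intervalIntegral.integral_finsetSum
      (fun j _ => (hci (mI T) (kj j)).intervalIntegrable _ _)] at e3
  rw [e2]
  have e4 := eq_sub_of_add_eq e3
  rw [e4]
  ring

/-- the sum over the nondiagonal tuples -/
lemma nd_sum {n : ℕ} {C3 C4 κ : ℝ} {X : ℕ} {T : ℝ}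
    (hoff : ∑ q ∈ (Fintype.piFinset (fun _ : Fin (n + 1) => FR X)).filter
      (fun q => ∏ j, (q j).1 ≠ ∏ j, (q j).2),
      (∏ j, (ht (q j))⁻¹) * mk T (∑ j, lam (q j)) ≤ C4 * (X : ℝ) ^ κ) :
    ∑ q ∈ nd n X, (∏ j, wf X C3 (q j) ^ 2) * mk T (Lm q) ≤
      (C3 * (1 + Real.log X)) ^ (2 * (n + 1)) * (C4 * (X : ℝ) ^ κ) := by
  have hht : ∀ p : ℕ × ℕ, 0 ≤ ht p := fun p => by unfold ht; positivity
  have e1 : ∀ q : Fin (n + 1) → ℕ × ℕ, ∏ j, wf X C3 (q j) ^ 2 =
      (C3 * (1 + Real.log X)) ^ (2 * (n + 1)) * ∏ j, (ht (q j))⁻¹ := by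
    intro q
    unfold wf
    simp_rw [mul_pow, inv_pow, Real.sq_sqrt (hht _)]
    rw [Finset.prod_mul_distrib, Finset.prod_const, Finset.card_univ, Fintype.card_fin]
    congr 1
    rw [← mul_pow, ← mul_pow, ← pow_mul]
  have e2 : ∑ q ∈ nd n X, (∏ j, wf X C3 (q j) ^ 2) * mk T (Lm q) =
      (C3 * (1 + Real.log X)) ^ (2 * (n + 1)) *
        ∑ q ∈ nd n X, (∏ j, (ht (q j))⁻¹) * mk T (Lm q) := by
    rw [Finset.mul_sum]
    refine Finset.sum_congr rfl fun q _ => ?_
    rw [e1]; ring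
  rw [e2]
  apply mul_le_mul_of_nonneg_left hoff
  rw [pow_mul]
  positivity

lemma fin_arith (n : ℕ) {T y N c5 C6 r : ℝ} (hT : 1 ≤ T) (hy : 1 ≤ y) (hr0 : 0 ≤ r) (hr : r ≤ y)
    (hN0 : 0 ≤ N) (hN : N ≤ C6 * T ^ (n + 1) * y ^ (4 * n + 6)) (hC6 : 0 < C6)
    (hC7 : 16 * (3 + (n + 1) ^ 2 * c5 ^ 2) * C6 ≤ y) :
    4 * (4 * (r ^ n) ^ 2 * N) * (3 + (n + 1) * ((n + 1) * (c5 * y) ^ 2)) ≤
      T ^ (n + 1) * y ^ (6 * n + 9) := by
  have hy0 : 0 ≤ y := by linarith
  have hT0 : 0 ≤ T := by linarith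
  have h1 : (3 : ℝ) + (n + 1) * ((n + 1) * (c5 * y) ^ 2) ≤ (3 + (n + 1) ^ 2 * c5 ^ 2) * y ^ 2 := by
    have h2 : 1 ≤ y ^ 2 := one_le_pow₀ hy
    nlinarith
  have h3 : 4 * (4 * (r ^ n) ^ 2 * N) ≤
      4 * (4 * (y ^ n) ^ 2 * (C6 * T ^ (n + 1) * y ^ (4 * n + 6))) := by
    gcongr
  have h4 : (0 : ℝ) ≤ 3 + (n + 1) * ((n + 1) * (c5 * y) ^ 2) := by positivity
  calc 4 * (4 * (r ^ n) ^ 2 * N) * (3 + (n + 1) * ((n + 1) * (c5 * y) ^ 2))
      ≤ 4 * (4 * (y ^ n) ^ 2 * (C6 * T ^ (n + 1) * y ^ (4 * n + 6))) *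
        ((3 + (n + 1) ^ 2 * c5 ^ 2) * y ^ 2) :=
        mul_le_mul h3 h1 h4 (by positivity)
    _ = (16 * (3 + (n + 1) ^ 2 * c5 ^ 2) * C6) * (T ^ (n + 1) * y ^ (6 * n + 8)) := by ring
    _ ≤ y * (T ^ (n + 1) * y ^ (6 * n + 8)) :=
        mul_le_mul_of_nonneg_right hC7 (by positivity)
    _ = T ^ (n + 1) * y ^ (6 * n + 9) := by ring

lemma rpow_form (n : ℕ) {T ε : ℝ} (hT : 0 < T) :
    T ^ ((n : ℝ) + 1 + (6 * n + 9) * ε) = T ^ (n + 1) * (T ^ ε) ^ (6 * n + 9) := by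
  rw [Real.rpow_add hT, mul_comm _ ε, Real.rpow_mul hT.le]
  have h1 : (n : ℝ) + 1 = ((n + 1 : ℕ) : ℝ) := by push_cast; ring
  have h2 : (6 * (n : ℝ) + 9) = ((6 * n + 9 : ℕ) : ℝ) := by push_cast; ring
  rw [h1, h2, Real.rpow_natCast, Real.rpow_natCast]

/-- pointwise bound for the four pieces -/
lemma four_pieces {n : ℕ} (x1 x2 x3 : ℂ) (x4 : Fin (n + 1) → ℂ) :
    ‖x1 + x2 - x3 - ∑ j, x4 j‖ ^ 2 ≤
      4 * (‖x1‖ ^ 2 + ‖x2‖ ^ 2 + ‖x3‖ ^ 2 + (n + 1) * ∑ j, ‖x4 j‖ ^ 2) := by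
  have h5 : ‖x1 + x2 - x3 - ∑ j, x4 j‖ ≤ ‖x1‖ + ‖x2‖ + ‖x3‖ + ∑ j, ‖x4 j‖ := by
    calc ‖x1 + x2 - x3 - ∑ j, x4 j‖ ≤ ‖x1 + x2 - x3‖ + ‖∑ j, x4 j‖ := norm_sub_le _ _
      _ ≤ (‖x1 + x2‖ + ‖x3‖) + ‖∑ j, x4 j‖ := by gcongr; exact norm_sub_le _ _
      _ ≤ ((‖x1‖ + ‖x2‖) + ‖x3‖) + ∑ j, ‖x4 j‖ := by
          gcongr
          · exact norm_add_le _ _
          · exact norm_sum_le _ _
  have h6 : (∑ j, ‖x4 j‖) ^ 2 ≤ (n + 1) * ∑ j, ‖x4 j‖ ^ 2 := by
    have h7 := sq_sum_le_card_mul_sum_sq (s := (Finset.univ : Finset (Fin (n + 1))))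
      (f := fun j => ‖x4 j‖)
    rw [Finset.card_univ, Fintype.card_fin] at h7
    push_cast at h7
    exact h7
  have h8 : ‖x1 + x2 - x3 - ∑ j, x4 j‖ ^ 2 ≤ (‖x1‖ + ‖x2‖ + ‖x3‖ + ∑ j, ‖x4 j‖) ^ 2 :=
    pow_le_pow_left₀ (norm_nonneg _) h5 2
  generalize (∑ j, ‖x4 j‖) = s4 at h5 h6 h8
  generalize (∑ j, ‖x4 j‖ ^ 2) = s5 at h6 ⊢
  nlinarith [sq_nonneg (‖x1‖ - ‖x2‖), sq_nonneg (‖x1‖ - ‖x3‖), sq_nonneg (‖x1‖ - s4),
    sq_nonneg (‖x2‖ - ‖x3‖), sq_nonneg (‖x2‖ - s4), sq_nonneg (‖x3‖ - s4)]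

lemma int_four {α : Type*} [MeasurableSpace α] {μ : Measure α} {n : ℕ} {f1 f2 f3 : α → ℝ}
    {f4 : Fin (n + 1) → α → ℝ} (h1 : Integrable f1 μ) (h2 : Integrable f2 μ)
    (h3 : Integrable f3 μ) (h4 : ∀ j, Integrable (f4 j) μ) :
    ∫ c, 4 * (f1 c + f2 c + f3 c + (n + 1) * ∑ j, f4 j c) ∂μ =
      4 * ((∫ c, f1 c ∂μ) + (∫ c, f2 c ∂μ) + (∫ c, f3 c ∂μ) + (n + 1) * ∑ j, ∫ c, f4 j c ∂μ) := by
  have h12 : Integrable (fun c => f1 c + f2 c) μ := h1.add h2
  have h123 : Integrable (fun c => f1 c + f2 c + f3 c) μ := h12.add h3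
  have h5 : Integrable (fun c => ∑ j, f4 j c) μ := integrable_finsetSum _ fun j _ => h4 j
  rw [integral_const_mul, integral_add h123 (h5.const_mul _), integral_add h12 h3,
    integral_add h1 h2, integral_const_mul, integral_finsetSum _ fun j _ => h4 j]

set_option maxHeartbeats 4000000 in
theorem t_VAR (h1 : S_SP) (h2 : S_LSW) (h3 : S_OFF) (h4 : S_CR) : S_VAR := by
  obtain ⟨-, C1, hC1, hrow⟩ := h1
  obtain ⟨hP, hM, C3, hC3, hcr0⟩ := h4
  intro n
  obtain ⟨C2, hC2, hL⟩ := h2 n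
  refine ⟨6 * n + 9, by positivity, ?_⟩
  intro ε hε hε1
  obtain ⟨C4, hC4, hoff0⟩ := h3 (n + 1) ε hε
  set c5 : ℝ := 1 + 2 / ε with hc5
  have hc5p : 1 ≤ c5 := by rw [hc5]; have : 0 < 2 / ε := by positivity
                           linarith
  set C6 : ℝ := C1 * C2 ^ n * (2 * c5) ^ (n + 1) * (C3 * c5) ^ (2 * (n + 1)) * C4 with hC6
  have hC6p : 0 < C6 := by positivity
  set C7 : ℝ := 16 * (3 + (n + 1) ^ 2 * c5 ^ 2) * C6 with hC7
  have hC7p : 0 < C7 := by positivity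
  refine ⟨max 1 (C7 ^ (1 / ε)), le_max_left _ _, ?_⟩
  intro T a S X hT0 haε haT hS hST hX hXT
  have hT1 : 1 ≤ T := (le_max_left _ _).trans hT0
  have hTp : 0 < T := by linarith
  have hX1 : (1 : ℝ) ≤ X := by exact_mod_cast hX
  have hXp : (0 : ℝ) < X := by linarith
  have hlogX : 0 ≤ Real.log X := Real.log_nonneg hX1
  have hlogT : 0 ≤ Real.log T := Real.log_nonneg hT1
  set y : ℝ := T ^ ε with hy
  have hy1 : 1 ≤ y := Real.one_le_rpow hT1 hε.le
  have hy0 : 0 < y := by linarith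
  have hC7y : C7 ≤ y := by
    calc C7 = (C7 ^ (1 / ε)) ^ ε := by
          rw [← Real.rpow_mul hC7p.le, one_div_mul_cancel hε.ne', Real.rpow_one]
      _ ≤ T ^ ε := Real.rpow_le_rpow (by positivity) ((le_max_right _ _).trans hT0) hε.le
  have ha1 : 1 ≤ a := (Real.one_le_rpow hT1 (by linarith)).trans haε
  have ha0 : 0 < a := by linarith
  have hTa : T / a ≤ y := by
    rw [div_le_iff₀ ha0]
    calc T = T ^ ε * T ^ (1 - ε) := by
          rw [← Real.rpow_add hTp]; norm_num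
      _ ≤ y * a := by gcongr
  have hTa1 : 1 ≤ T / a := by rw [le_div_iff₀ ha0]; linarith
  have hXTy : (X : ℝ) ≤ T * y := by
    refine hXT.trans (le_of_eq ?_)
    rw [Real.rpow_add hTp, Real.rpow_one]
  have hTX : T + X ≤ 2 * T * y := by nlinarith
  have hXε : (X : ℝ) ^ ε ≤ y ^ 2 := by
    calc (X : ℝ) ^ ε ≤ (T * y) ^ ε := Real.rpow_le_rpow hXp.le hXTy hε.le
      _ = y * y ^ ε := by rw [Real.mul_rpow hTp.le hy0.le]
      _ ≤ y * y ^ (1 : ℝ) :=
          mul_le_mul_of_nonneg_left (Real.rpow_le_rpow_of_exponent_le hy1 hε1.le) hy0.le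
      _ = y ^ 2 := by rw [Real.rpow_one]; ring
  have hlT : Real.log T ≤ y / ε := Real.log_le_rpow_div hTp.le hε
  have hlX : Real.log X ≤ 2 * Real.log T := by
    calc Real.log X ≤ Real.log (T ^ (1 + ε)) := Real.log_le_log hXp hXT
      _ = (1 + ε) * Real.log T := Real.log_rpow hTp _
      _ ≤ 2 * Real.log T := by
          apply mul_le_mul_of_nonneg_right _ hlogT
          linarith
  have hLX : 1 + Real.log X ≤ c5 * y := by
    calc 1 + Real.log X ≤ y + 2 * (y / ε) := by linarith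
      _ = c5 * y := by rw [hc5]; ring
  have hlT5 : Real.log T ≤ c5 * y := by
    have : y / ε ≤ c5 * y := by
      rw [hc5]
      have h5 : 0 ≤ y / ε := by positivity
      calc y / ε ≤ y + 2 * (y / ε) := by linarith
        _ = (1 + 2 / ε) * y := by ring
    linarith
  have hL0 : 0 ≤ 1 + Real.log X := by linarith
  -- the basic quantity
  set N : ℝ := NN n X C1 C2 C3 T with hN
  have hsum0 : 0 ≤ ∑ q ∈ nd n X, (∏ j, wf X C3 (q j) ^ 2) * mk T (Lm q) :=
    Finset.sum_nonneg fun q _ => mul_nonneg (Finset.prod_nonneg fun _ _ => sq_nonneg _)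
      (mk_nonneg hTp.le _)
  have hN0 : 0 ≤ N := by
    rw [hN]; unfold NN
    have : 0 ≤ T + X := by linarith
    positivity
  have hNle : N ≤ C6 * T ^ (n + 1) * y ^ (4 * n + 6) := by
    have hTXL : (T + X) * (1 + Real.log X) ≤ (2 * c5) * T * y ^ 2 := by
      calc (T + X) * (1 + Real.log X) ≤ (2 * T * y) * (c5 * y) :=
            mul_le_mul hTX hLX hL0 (by positivity)
        _ = _ := by ring
    have hTXL0 : 0 ≤ (T + X) * (1 + Real.log X) := mul_nonneg (by linarith) hL0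
    have hs := nd_sum (n := n) (C3 := C3) (hoff0 X T hX hT1)
    have hs2 : (C3 * (1 + Real.log X)) ^ (2 * (n + 1)) * (C4 * (X : ℝ) ^ ε) ≤
        (C3 * (c5 * y)) ^ (2 * (n + 1)) * (C4 * y ^ 2) := by gcongr
    rw [hN]; unfold NN
    calc (C1 * ((T + X) * (1 + Real.log X))) * (C2 * ((T + X) * (1 + Real.log X))) ^ n *
          ∑ q ∈ nd n X, (∏ j, wf X C3 (q j) ^ 2) * mk T (Lm q)
        ≤ (C1 * ((2 * c5) * T * y ^ 2)) * (C2 * ((2 * c5) * T * y ^ 2)) ^ n *
          ((C3 * (c5 * y)) ^ (2 * (n + 1)) * (C4 * y ^ 2)) := by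
          apply mul_le_mul _ (hs.trans hs2) hsum0 (by positivity)
          gcongr
      _ = C6 * T ^ (n + 1) * y ^ (4 * n + 6) := by
          rw [hC6]
          ring_nf
  -- pieces
  have hcr : CRB X C3 := hcr0 X
  set G : ℝ := 4 * ((T / a) ^ n) ^ 2 * N with hG
  have hG0 : 0 ≤ G := by positivity
  have hprod : ∀ i : Fin (n + 1), ∀ t : ℝ, 1 ≤ t →
      (1 / t ^ (kj i 0)) * ∏ j : Fin n, ((T / a) / a ^ (kj i j.succ)) =
      (T / a) ^ n * (if i = 0 then 1 / t else 1 / a) := by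
    intro i t ht
    refine Fin.cases ?_ ?_ i
    · have e1 : ∀ j : Fin n, kj (0 : Fin (n + 1)) j.succ = 0 := fun j => by
        unfold kj; rw [if_neg (Fin.succ_ne_zero j)]
      have e2 : kj (0 : Fin (n + 1)) 0 = 1 := by unfold kj; rw [if_pos rfl]
      rw [e2]
      simp_rw [e1]
      simp only [pow_one, pow_zero, div_one, Finset.prod_const, Finset.card_univ,
        Fintype.card_fin, if_true]
      ring
    · intro i
      have e0 : kj i.succ (0 : Fin (n + 1)) = 0 := by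
        unfold kj; rw [if_neg (Fin.succ_ne_zero i).symm]
      have e1 : ∀ j : Fin n, (T / a) / a ^ (kj i.succ j.succ) =
          (T / a) * (if j = i then 1 / a else 1) := fun j => by
        unfold kj
        by_cases hji : j = i
        · rw [if_pos (by rw [hji]), if_pos hji, pow_one]; ring
        · rw [if_neg (fun hh => hji (Fin.succ_injective _ hh)), if_neg hji]; simp
      rw [e0, if_neg (Fin.succ_ne_zero i)]
      simp_rw [e1]
      rw [Finset.prod_mul_distrib, Finset.prod_ite_eq' Finset.univ i, if_pos (Finset.mem_univ i),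
        Finset.prod_const, Finset.card_univ, Fintype.card_fin, pow_zero]
      ring
  have hprod0 : ∀ t : ℝ, (1 / t ^ ((fun _ : Fin (n + 1) => 0) 0)) *
      ∏ j : Fin n, ((T / a) / a ^ ((fun _ : Fin (n + 1) => 0) j.succ)) = (T / a) ^ n := by
    intro t
    simp only [pow_zero, div_one, Finset.prod_const, Finset.card_univ, Fintype.card_fin]
    ring
  -- first piece
  have hp1 : ∫ c, ‖∫ t in (1 : ℝ)..S, D X (mS T) (fun _ => ev X 0) c t‖ ^ 2 ∂(mB n a T) ≤ G := by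
    have h5 := mink (n := n) (a := a) (T := T) (M := G / T ^ 2) hS
      (g := fun c t => D X (mS T) (fun _ => ev X 0) c t)
      (D_cont (n := n) hcr (mS T) (fun _ => 0)) (f := fun _ => 1) continuous_const
      (fun _ => one_pos)
      (by
        intro t ht1 htS
        have h6 := fixed_k (n := n) hC2 hC3 hrow hL hX hcr ha1 haT ht1 (m := mS T) (μ := 1 / T)
          (by positivity) (fun q _ => mS_le hTp q) (k := fun _ => 0) (fun _ => Nat.zero_le _)
        rw [hprod0] at h6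
        refine h6.trans (le_of_eq ?_)
        rw [hG, hN]
        field_simp)
    refine h5.trans ?_
    rw [intervalIntegral.integral_const, smul_eq_mul, mul_one]
    have h7 : (S - 1) ^ 2 ≤ T ^ 2 := pow_le_pow_left₀ (by linarith) (by linarith) 2
    calc G / T ^ 2 * (S - 1) ^ 2 ≤ G / T ^ 2 * T ^ 2 := by gcongr
      _ = G := by field_simp
  -- boundary terms
  have hp2 : ∀ t : ℝ, 1 ≤ t → ∫ c, ‖D X (mI T) (fun _ => ev X 0) c t‖ ^ 2 ∂(mB n a T) ≤ G := by
    intro t ht1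
    have h6 := fixed_k (n := n) hC2 hC3 hrow hL hX hcr ha1 haT ht1 (m := mI T) (μ := 1)
      (by positivity) (fun q _ => mI_le hTp q) (k := fun _ => 0) (fun _ => Nat.zero_le _)
    rw [hprod0] at h6
    refine h6.trans (le_of_eq ?_)
    rw [hG, hN]
    ring
  -- derivative terms
  have hp3 : ∀ j : Fin (n + 1),
      ∫ c, ‖∫ t in (1 : ℝ)..S, D X (mI T) (fun i => ev X (kj j i)) c t‖ ^ 2 ∂(mB n a T) ≤
        G * ((c5 * y) ^ 2) := by
    intro j
    by_cases hj : j = 0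
    · have h5 := mink (n := n) (a := a) (T := T) (M := G) hS
        (g := fun c t => D X (mI T) (fun i => ev X (kj j i)) c t)
        (D_cont (n := n) hcr (mI T) (kj j)) (f := fun t => 1 / max 1 t)
        (continuous_const.div (continuous_const.max continuous_id)
          (fun t => (lt_of_lt_of_le one_pos (le_max_left 1 t)).ne'))
        (fun t => by
          have : (0 : ℝ) < max 1 t := lt_of_lt_of_le one_pos (le_max_left 1 t)
          positivity)
        (by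
          intro t ht1 htS
          have h6 := fixed_k (n := n) hC2 hC3 hrow hL hX hcr ha1 haT ht1 (m := mI T) (μ := 1)
            (by positivity) (fun q _ => mI_le hTp q) (k := kj j)
            (fun i => by unfold kj; split_ifs <;> norm_num)
          rw [hprod j t ht1, if_pos hj] at h6
          rw [max_eq_right ht1]
          refine h6.trans (le_of_eq ?_)
          rw [hG, hN]
          ring)
      refine h5.trans ?_
      have h7 : ∫ t in (1 : ℝ)..S, 1 / max 1 t = Real.log S := by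
        have h8 : ∫ t in (1 : ℝ)..S, 1 / max 1 t = ∫ t in (1 : ℝ)..S, 1 / t := by
          apply intervalIntegral.integral_congr
          intro t ht
          rw [uIcc_of_le hS] at ht
          show 1 / max 1 t = 1 / t
          rw [max_eq_right ht.1]
        rw [h8, integral_one_div_of_pos one_pos (by linarith), div_one]
      rw [h7]
      have h9 : Real.log S ≤ c5 * y := (Real.log_le_log (by linarith) hST).trans hlT5
      have h10 : 0 ≤ Real.log S := Real.log_nonneg hS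
      gcongr
    · have h5 := mink (n := n) (a := a) (T := T) (M := G) hS
        (g := fun c t => D X (mI T) (fun i => ev X (kj j i)) c t)
        (D_cont (n := n) hcr (mI T) (kj j)) (f := fun _ => 1 / a) continuous_const
        (fun _ => by positivity)
        (by
          intro t ht1 htS
          have h6 := fixed_k (n := n) hC2 hC3 hrow hL hX hcr ha1 haT ht1 (m := mI T) (μ := 1)
            (by positivity) (fun q _ => mI_le hTp q) (k := kj j)
            (fun i => by unfold kj; split_ifs <;> norm_num)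
          rw [hprod j t ht1, if_neg hj] at h6
          refine h6.trans (le_of_eq ?_)
          rw [hG, hN]
          ring)
      refine h5.trans ?_
      rw [intervalIntegral.integral_const, smul_eq_mul]
      have h9 : (S - 1) * (1 / a) ≤ c5 * y := by
        calc (S - 1) * (1 / a) ≤ T * (1 / a) :=
              mul_le_mul_of_nonneg_right (by linarith) (by positivity)
          _ = T / a := by ring
          _ ≤ y := hTa
          _ ≤ c5 * y := le_mul_of_one_le_left hy0.le hc5p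
      have h10 : 0 ≤ (S - 1) * (1 / a) := mul_nonneg (by linarith) (by positivity)
      gcongr
  -- total
  have hcI : ∀ (m : (Fin (n + 1) → ℕ × ℕ) → ℂ) (k : Fin (n + 1) → ℕ) (t : ℝ),
      Continuous fun c : Fin n → ℝ => D X m (fun j => ev X (k j)) c t := by
    intro m k t
    have h5 := D_cont (n := n) hcr m k
    have h6 : (fun c : Fin n → ℝ => D X m (fun j => ev X (k j)) c t) = fun c =>
        Function.uncurry (fun (c : Fin n → ℝ) (t : ℝ) => D X m (fun j => ev X (k j)) c t) (c, t) := rfl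
    rw [h6]
    exact h5.comp (by fun_prop)
  have hcJ : ∀ (m : (Fin (n + 1) → ℕ × ℕ) → ℂ) (k : Fin (n + 1) → ℕ),
      Continuous fun c : Fin n → ℝ => ∫ t in (1 : ℝ)..S, D X m (fun j => ev X (k j)) c t :=
    fun m k => cont_param (D_cont (n := n) hcr m k)
  set x1 : (Fin n → ℝ) → ℂ := fun c => ∫ t in (1 : ℝ)..S, D X (mS T) (fun _ => ev X 0) c t with hx1
  set x2 : (Fin n → ℝ) → ℂ := fun c => D X (mI T) (fun _ => ev X 0) c S with hx2
  set x3 : (Fin n → ℝ) → ℂ := fun c => D X (mI T) (fun _ => ev X 0) c 1 with hx3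
  set x4 : Fin (n + 1) → (Fin n → ℝ) → ℂ := fun j c =>
    ∫ t in (1 : ℝ)..S, D X (mI T) (fun i => ev X (kj j i)) c t with hx4
  have hc1 : Continuous x1 := hcJ (mS T) (fun _ => 0)
  have hc2 : Continuous x2 := hcI (mI T) (fun _ => 0) S
  have hc3 : Continuous x3 := hcI (mI T) (fun _ => 0) 1
  have hc4 : ∀ j, Continuous (x4 j) := fun j => hcJ (mI T) (kj j)
  have hpt : ∀ c : Fin n → ℝ, ‖x1 c + x2 c - x3 c - ∑ j, x4 j c‖ ^ 2 ≤
      4 * (‖x1 c‖ ^ 2 + ‖x2 c‖ ^ 2 + ‖x3 c‖ ^ 2 + (n + 1) * ∑ j, ‖x4 j c‖ ^ 2) :=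
    fun c => four_pieces (x1 c) (x2 c) (x3 c) (fun j => x4 j c)
  have hi1 : Integrable (fun c => ‖x1 c‖ ^ 2) (mB n a T) := int_mB (hc1.norm.pow 2)
  have hi2 : Integrable (fun c => ‖x2 c‖ ^ 2) (mB n a T) := int_mB (hc2.norm.pow 2)
  have hi3 : Integrable (fun c => ‖x3 c‖ ^ 2) (mB n a T) := int_mB (hc3.norm.pow 2)
  have hi4 : ∀ j ∈ (Finset.univ : Finset (Fin (n + 1))),
      Integrable (fun c => ‖x4 j c‖ ^ 2) (mB n a T) := fun j _ => int_mB ((hc4 j).norm.pow 2)
  have hi4s : Integrable (fun c => ∑ j, ‖x4 j c‖ ^ 2) (mB n a T) := integrable_finsetSum _ hi4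
  calc ∫ c, ‖∫ t in (1 : ℝ)..S, (∏ j, PX X (t + cc c j) - MX X c t)‖ ^ 2 ∂(mB n a T)
      = ∫ c, ‖x1 c + x2 c - x3 c - ∑ j, x4 j c‖ ^ 2 ∂(mB n a T) := by
        apply integral_congr_ae
        filter_upwards [ae_mB n a T] with c hc
        rw [pointwise hcr hTp hS (hP X) (hM n X) (fun j => ha0.le.trans (hc j).1)]
    _ ≤ ∫ c, 4 * (‖x1 c‖ ^ 2 + ‖x2 c‖ ^ 2 + ‖x3 c‖ ^ 2 + (n + 1) * ∑ j, ‖x4 j c‖ ^ 2)
          ∂(mB n a T) := by
        apply integral_mono
        · exact int_mB ((((hc1.add hc2).sub hc3).sub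
            (continuous_finsetSum _ fun j _ => hc4 j)).norm.pow 2)
        · exact (((hi1.add hi2).add hi3).add (hi4s.const_mul _)).const_mul _
        · exact hpt
    _ = 4 * ((∫ c, ‖x1 c‖ ^ 2 ∂(mB n a T)) + (∫ c, ‖x2 c‖ ^ 2 ∂(mB n a T)) +
          (∫ c, ‖x3 c‖ ^ 2 ∂(mB n a T)) + (n + 1) * ∑ j, ∫ c, ‖x4 j c‖ ^ 2 ∂(mB n a T)) :=
        int_four hi1 hi2 hi3 (fun j => hi4 j (Finset.mem_univ j))
    _ ≤ 4 * (G + G + G + (n + 1) * ∑ _j : Fin (n + 1), G * (c5 * y) ^ 2) := by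
        gcongr with j _
        · exact hp2 S hS
        · exact hp2 1 le_rfl
        · exact hp3 j
    _ = 4 * G * (3 + (n + 1) * ((n + 1) * (c5 * y) ^ 2)) := by
        rw [Finset.sum_const, Finset.card_univ, Fintype.card_fin, nsmul_eq_mul]
        push_cast
        ring
    _ ≤ T ^ ((n : ℝ) + 1 + (6 * n + 9) * ε) := by
        rw [rpow_form n hTp]
        exact fin_arith n hT1 hy1 (by positivity) hTa hN0 hNle hC6p hC7y

end

end Pool.Agent.Y125.GP
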